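import Mathlib

/-!
# Project AK (MP_75608d_al): all `k ≥ 2` random even permutations expand on `r`-tuples

Definitions (only Mathlib is imported).
-/

set_option linter.unusedVariables false

namespace Pool.Agent.Helper3.AK

open Equiv

variable {n r k K : ℕ}

/-- the even permutations of `Fin n` -/
abbrev Alt (n : ℕ) : Subgroup (Perm (Fin n)) := alternatingGroup (Fin n)

/-- the walk on functions on `A_n` -/
noncomputable def walk (z : Fin k → Alt n) (f : Alt n → ℝ) : Alt n → ℝ := fun g =>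
  (2 * (k : ℝ))⁻¹ * ∑ i, (f (g * z i) + f (g * (z i)⁻¹))

/-- spectral gap on the functions invariant under the stabilizer of the first `p` points -/
def GroupGap (z : Fin k → Alt n) (p : ℕ) (ε : ℝ) : Prop :=
  ∀ f : Alt n → ℝ, ∑ g, f g = 0 →
    (∀ h g : Alt n, (∀ i : Fin n, i.val < p → (h : Perm (Fin n)) i = i) → f (h * g) = f g) →
    ∑ g, f g * walk z f g ≤ (1 - ε) * ∑ g, f g ^ 2

/-- the walk on tuples of distinct points -/
noncomputable def tupleWalk (z : Fin k → Alt n) (r : ℕ) (φ : (Fin r ↪ Fin n) → ℝ) :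
    (Fin r ↪ Fin n) → ℝ := fun a => (2 * (k : ℝ))⁻¹ *
  ∑ i, (φ (a.trans (z i : Perm (Fin n)).toEmbedding) +
    φ (a.trans ((z i)⁻¹ : Perm (Fin n)).toEmbedding))

/-- spectral gap of the walk on tuples -/
def TupleGap (z : Fin k → Alt n) (r : ℕ) (ε : ℝ) : Prop :=
  ∀ φ : (Fin r ↪ Fin n) → ℝ, ∑ a, φ a = 0 →
    ∑ a, φ a * tupleWalk z r φ a ≤ (1 - ε) * ∑ a, φ a ^ 2

/-- a probability weight which is nearly `m`-wise uniform (up to a factor two) -/
structure Wise (κ : Perm (Fin n) → ℝ) (m : ℕ) : Prop where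
  nonneg : ∀ g, 0 ≤ κ g
  sum : ∑ g, κ g = 1
  wise : ∀ j ≤ m, ∀ a b : Fin j ↪ Fin n,
    ∑ g ∈ Finset.univ.filter (fun g : Perm (Fin n) => ∀ i, g (a i) = b i), κ g ≤
      2 / (n.descFactorial j : ℝ)

/-- real functions on the injective `r`-tuples of points of `Fin n` -/
abbrev Fn (n r : ℕ) : Type := (Fin r ↪ Fin n) → ℝ

/-- scalar product -/
noncomputable def ip (φ ψ : Fn n r) : ℝ := ∑ a, φ a * ψ a

/-- action of a permutation on functions: `(Act g φ) a = φ (g ∘ a)`, so
`Act g ∘ Act h = Act (h * g)` -/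
def Act (g : Perm (Fin n)) : Fn n r →ₗ[ℝ] Fn n r where
  toFun φ a := φ (a.trans g.toEmbedding)
  map_add' _ _ := rfl
  map_smul' _ _ := rfl

/-- average of the actions with weights `κ` -/
noncomputable def Avg (κ : Perm (Fin n) → ℝ) : Fn n r →ₗ[ℝ] Fn n r := ∑ g, κ g • Act g

/-- the transition operator of the walk on tuples -/
noncomputable def Wk (z : Fin k → Alt n) : Fn n r →ₗ[ℝ] Fn n r :=
  (2 * (k : ℝ))⁻¹ • ∑ i, (Act (z i : Perm (Fin n)) + Act ((z i : Perm (Fin n))⁻¹))

/-- all marginals vanish: the sum over all injective tuples which agree with `a` off `j` is `0` -/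
def Zm (φ : Fn n r) : Prop := ∀ (j : Fin r) (a : Fin r ↪ Fin n),
  ∑ b ∈ Finset.univ.filter (fun b : Fin r ↪ Fin n => ∀ i, i ≠ j → b i = a i), φ b = 0

/-- `2 r` distinct points: `a_i = c (i, false)`, `b_i = c (i, true)` -/
abbrev Pts (n r : ℕ) : Type := (Fin r × Bool) ↪ Fin n

/-- the tuple `i ↦ c (i, s i)` -/
def pick (c : Pts n r) (s : Fin r → Bool) : Fin r ↪ Fin n where
  toFun i := c (i, s i)
  inj' i j h := congrArg Prod.fst (c.injective h)

/-- the sign of a choice -/
def sgn (s : Fin r → Bool) : ℝ := ∏ i, if s i then (-1 : ℝ) else 1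

/-- the tensor product of the `δ_{a_i} - δ_{b_i}` -/
noncomputable def tst (c : Pts n r) : Fn n r := fun a =>
  ∑ s : Fin r → Bool, if pick c s = a then sgn s else 0

/-- `D_i(w) = [w a_i = a_i] + [w b_i = b_i] - [w a_i = b_i] - [w b_i = a_i]` -/
def DD (c : Pts n r) (w : Perm (Fin n)) (i : Fin r) : ℝ :=
  (if w (c (i, false)) = c (i, false) then 1 else 0) +
  (if w (c (i, true)) = c (i, true) then 1 else 0) -
  (if w (c (i, false)) = c (i, true) then 1 else 0) -
  (if w (c (i, true)) = c (i, false) then 1 else 0)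

/-- a letter: a generator with an orientation (`true` means inverse) -/
abbrev Letter (K : ℕ) : Type := Fin K × Bool

/-- inverse letter -/
def flip (l : Letter K) : Letter K := (l.1, !l.2)

/-- the permutation of a letter -/
def lett (x : Fin K → Alt n) (l : Letter K) : Perm (Fin n) :=
  if l.2 then ((x l.1 : Perm (Fin n)))⁻¹ else (x l.1 : Perm (Fin n))

/-- positions: `zpos 0 = 1`, `zpos (t + 1) = (letter g_t) * u_t * zpos t` -/
def zpos (x : Fin K → Alt n) (u : ℕ → Perm (Fin n)) (g : ℕ → Letter K) : ℕ → Perm (Fin n)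
  | 0 => 1
  | t + 1 => lett x (g t) * u t * zpos x u g t

/-- the tail of the edge passed by the point `p` at time `t`: the edges of the generator `j` are
`(v, x_j v)`, the tail is `v` -/
def tail (x : Fin K → Alt n) (u : ℕ → Perm (Fin n)) (g : ℕ → Letter K) (t : ℕ) (p : Fin n) :
    Fin n :=
  if (g t).2 then zpos x u g (t + 1) p else u t (zpos x u g t p)

/-- the edge passed by the point `c q` at time `t` is passed only once (by all points of `c`, at
all times `< T`) -/
def Single (x : Fin K → Alt n) (u : ℕ → Perm (Fin n)) (g : ℕ → Letter K) (T : ℕ) (c : Pts n r)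
    (t : ℕ) (q : Fin r × Bool) : Prop :=
  ∀ t' < T, ∀ q' : Fin r × Bool, (t', q') ≠ (t, q) → (g t').1 = (g t).1 →
    tail x u g t' (c q') ≠ tail x u g t (c q)

/-- for every `i` and every time one of the two edges passed by `a_i`, `b_i` is not single -/
def Mev (x : Fin K → Alt n) (u : ℕ → Perm (Fin n)) (g : ℕ → Letter K) (T : ℕ) (c : Pts n r) :
    Prop :=
  ∀ t < T, ∀ i : Fin r, ¬ Single x u g T c t (i, false) ∨ ¬ Single x u g T c t (i, true)

/-- law of `m` lazy steps: `Avg (lazyLaw z m) = ((1 + Wk z) / 2) ^ m` -/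
noncomputable def lazyLaw (z : Fin k → Alt n) : ℕ → Perm (Fin n) → ℝ
  | 0 => fun g => if g = 1 then 1 else 0
  | m + 1 => fun g => (1 / 2) * lazyLaw z m g + (4 * (k : ℝ))⁻¹ *
      ∑ i, (lazyLaw z m (g * (z i : Perm (Fin n))⁻¹) + lazyLaw z m (g * (z i : Perm (Fin n))))

/-- the lazy operator `(1 + Wk z) / 2` -/
noncomputable def Lz (z : Fin k → Alt n) : Fn n r →ₗ[ℝ] Fn n r :=
  (1 / 2 : ℝ) • (LinearMap.id + Wk z)

/-- `G = L^m Y L^{2m} Y⁻¹ L^m` -/
noncomputable def Gop (z : Fin k → Alt n) (y : Alt n) (m : ℕ) : Fn n r →ₗ[ℝ] Fn n r :=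
  (Lz z ^ m) * Act (y : Perm (Fin n)) * (Lz z ^ (2 * m)) * Act ((y : Perm (Fin n))⁻¹) * (Lz z ^ m)

theorem Act_apply (g : Perm (Fin n)) (φ : Fn n r) (a : Fin r ↪ Fin n) :
    Act g φ a = φ (a.trans g.toEmbedding) := rfl

theorem Act_one : (Act (1 : Perm (Fin n)) : Fn n r →ₗ[ℝ] Fn n r) = 1 := rfl

theorem Act_mul (g h : Perm (Fin n)) :
    (Act (g * h) : Fn n r →ₗ[ℝ] Fn n r) = Act h * Act g := rfl

theorem Avg_apply (κ : Perm (Fin n) → ℝ) (φ : Fn n r) (a : Fin r ↪ Fin n) :
    Avg κ φ a = ∑ g, κ g * φ (a.trans g.toEmbedding) := by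
  simp [Avg, Act_apply]

theorem Wk_eq (z : Fin k → Alt n) (φ : Fn n r) : Wk z φ = tupleWalk z r φ := by
  ext a
  simp only [Wk, tupleWalk, LinearMap.smul_apply, LinearMap.sum_apply, LinearMap.add_apply,
    Pi.smul_apply, smul_eq_mul, Finset.sum_apply, Pi.add_apply, Act_apply]

/-- with probability tending to one, `k` random even permutations have gap `ε` on all tuples of
length `r ≤ n ^ α` -/
def Whp (k : ℕ) (α ε : ℝ) : Prop :=
  Filter.Tendsto (fun n : ℕ =>
    (Nat.card {x : Fin k → Alt n // ∀ r : ℕ, (r : ℝ) ≤ (n : ℝ) ^ α → TupleGap x r ε} : ℝ) /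
      Nat.card (Fin k → Alt n)) Filter.atTop (nhds 1)

end Pool.Agent.Helper3.AK
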