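import Pool.Agent.Helper3.AK.Main
import Pool.Agent.Helper6.H.Main
import Pool.Agent.Helper6.W.Claim

/-!
# Project AK, the final form of Theorem A
-/

namespace Pool.Agent.Helper3.AK

open Filter Topology

/-- gap on the tuples and on the functions of `r` coordinates -/
def EUT (k : ℕ) (α ε : ℝ) : Prop :=
  Tendsto (fun n : ℕ => (Nat.card {x : Fin k → Alt n // ∀ r : ℕ, (r : ℝ) ≤ (n : ℝ) ^ α →
    GroupGap x r ε ∧ TupleGap x r ε} : ℝ) / Nat.card (Fin k → Alt n)) atTop (𝓝 1)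

theorem ev_add_two_le {α : ℝ} (hα : α < 1) : ∀ᶠ n : ℕ in atTop, ∀ r : ℕ,
    (r : ℝ) ≤ (n : ℝ) ^ α → r + 2 ≤ n := by
  set β : ℝ := max α 0 with hβ
  have hβ1 : β < 1 := max_lt hα (by norm_num)
  have h1 : Tendsto (fun n : ℕ => (n : ℝ) ^ (1 - β)) atTop atTop :=
    (tendsto_rpow_atTop (by linarith)).comp tendsto_natCast_atTop_atTop
  filter_upwards [h1.eventually_ge_atTop 2, eventually_ge_atTop 4] with n h2 hn r hr
  have hn0 : (0 : ℝ) < n := by
    have : 0 < n := by omega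
    exact_mod_cast this
  have hn1 : (1 : ℝ) ≤ n := by
    have : 1 ≤ n := by omega
    exact_mod_cast this
  have h3 : (r : ℝ) ≤ (n : ℝ) ^ β :=
    hr.trans (Real.rpow_le_rpow_of_exponent_le hn1 (le_max_left _ _))
  have h4 : (r : ℝ) * 2 ≤ n := by
    calc (r : ℝ) * 2 ≤ (n : ℝ) ^ β * (n : ℝ) ^ (1 - β) := by gcongr
      _ = n := by
        rw [← Real.rpow_add hn0]
        simp
  have h5 : r * 2 ≤ n := by exact_mod_cast h4
  omega

theorem eut_of_whp {k : ℕ} {α ε : ℝ} (hα : α < 1) (h : Whp k α ε) : EUT k α ε := by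
  unfold Whp at h
  unfold EUT
  refine h.congr' ?_
  filter_upwards [ev_add_two_le hα] with n hn
  have h1 : Nat.card {x : Fin k → Alt n // ∀ r : ℕ, (r : ℝ) ≤ (n : ℝ) ^ α → TupleGap x r ε} =
      Nat.card {x : Fin k → Alt n // ∀ r : ℕ, (r : ℝ) ≤ (n : ℝ) ^ α →
        GroupGap x r ε ∧ TupleGap x r ε} :=
    Nat.card_congr (Equiv.subtypeEquivRight fun x =>
      ⟨fun hx r hr => ⟨Pool.Agent.Helper11.AK.gg n k r (hn r hr) x ε (hx r hr), hx r hr⟩,
        fun hx r hr => (hx r hr).2⟩)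
  rw [h1]

theorem GroupGap.mono_eps {n k r : ℕ} {x : Fin k → Alt n} {ε ε' : ℝ} (h : ε' ≤ ε)
    (hx : GroupGap x r ε) : GroupGap x r ε' := by
  intro f hs hf
  refine (hx f hs hf).trans ?_
  have : 0 ≤ ∑ g, f g ^ 2 := Finset.sum_nonneg fun g _ => sq_nonneg _
  exact mul_le_mul_of_nonneg_right (by linarith) this

theorem TupleGap.mono_eps {n k r : ℕ} {x : Fin k → Alt n} {ε ε' : ℝ} (h : ε' ≤ ε)
    (hx : TupleGap x r ε) : TupleGap x r ε' := by
  intro f hs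
  refine (hx f hs).trans ?_
  have : 0 ≤ ∑ g, f g ^ 2 := Finset.sum_nonneg fun g _ => sq_nonneg _
  exact mul_le_mul_of_nonneg_right (by linarith) this

theorem EUT.mono {k : ℕ} {α ε ε' : ℝ} (h : ε' ≤ ε) (hx : EUT k α ε) : EUT k α ε' := by
  unfold EUT at *
  refine tendsto_of_tendsto_of_tendsto_of_le_of_le hx tendsto_const_nhds ?_ ?_
  · intro n
    have h1 : Nat.card {x : Fin k → Alt n // ∀ r : ℕ, (r : ℝ) ≤ (n : ℝ) ^ α →
        GroupGap x r ε ∧ TupleGap x r ε} ≤ Nat.card {x : Fin k → Alt n // ∀ r : ℕ,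
        (r : ℝ) ≤ (n : ℝ) ^ α → GroupGap x r ε' ∧ TupleGap x r ε'} :=
      Nat.card_le_card_of_injective (fun z => ⟨z.1, fun r hr =>
        ⟨(z.2 r hr).1.mono_eps h, (z.2 r hr).2.mono_eps h⟩⟩) (by
          intro x y hxy
          have := congrArg Subtype.val hxy
          exact Subtype.ext this)
    have h2 : (Nat.card {x : Fin k → Alt n // ∀ r : ℕ, (r : ℝ) ≤ (n : ℝ) ^ α →
        GroupGap x r ε ∧ TupleGap x r ε} : ℝ) ≤ Nat.card {x : Fin k → Alt n // ∀ r : ℕ,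
        (r : ℝ) ≤ (n : ℝ) ^ α → GroupGap x r ε' ∧ TupleGap x r ε'} := by exact_mod_cast h1
    exact div_le_div_of_nonneg_right h2 (Nat.cast_nonneg _)
  · intro n
    have hcards : (0 : ℝ) < Nat.card (Fin k → Alt n) := by
      have : 0 < Nat.card (Fin k → Alt n) := Nat.card_pos
      exact_mod_cast this
    show _ ≤ (1 : ℝ)
    rw [div_le_one hcards]
    have := Nat.card_le_card_of_injective
      (fun x : {x : Fin k → Alt n // ∀ r : ℕ, (r : ℝ) ≤ (n : ℝ) ^ α →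
        GroupGap x r ε' ∧ TupleGap x r ε'} => x.1) Subtype.val_injective
    exact_mod_cast this

/-- for every `k ≥ 2` and `α < 1 - (2/3) 2^{-(k-2)}`, with `ε` depending only on `α` -/
theorem main_uniform (α : ℝ) (hα : α < 1) : ∃ ε : ℝ, 0 < ε ∧ ∀ k : ℕ, 2 ≤ k →
    α < 1 - 2 / 3 / 2 ^ (k - 2) → EUT k α ε := by
  obtain ⟨ε₁, hε₁, K, hK⟩ := Pool.Agent.Helper6.W.main_tuples hα
  have hfin : ∀ N : ℕ, ∃ ε : ℝ, 0 < ε ∧ ∀ k : ℕ, k < N → 2 ≤ k →
      α < 1 - 2 / 3 / 2 ^ (k - 2) → EUT k α ε := by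
    intro N
    induction N with
    | zero => exact ⟨1, one_pos, fun k hk => absurd hk (by omega)⟩
    | succ N ih =>
      obtain ⟨ε, hε, h⟩ := ih
      by_cases hN : 2 ≤ N ∧ α < 1 - 2 / 3 / 2 ^ (N - 2)
      · obtain ⟨ε', hε', h'⟩ := allk_all N hN.1 α hN.2
        refine ⟨min ε ε', lt_min hε hε', fun k hk h2 hk' => ?_⟩
        rcases Nat.lt_succ_iff_lt_or_eq.1 hk with h3 | h3
        · exact (h k h3 h2 hk').mono (min_le_left _ _)
        · subst h3
          exact (eut_of_whp hα h').mono (min_le_right _ _)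
      · refine ⟨ε, hε, fun k hk h2 hk' => ?_⟩
        rcases Nat.lt_succ_iff_lt_or_eq.1 hk with h3 | h3
        · exact h k h3 h2 hk'
        · subst h3
          exact absurd ⟨h2, hk'⟩ hN
  obtain ⟨ε₂, hε₂, h₂⟩ := hfin K
  refine ⟨min ε₁ ε₂, lt_min hε₁ hε₂, fun k hk hk' => ?_⟩
  rcases lt_or_ge k K with h3 | h3
  · exact (h₂ k h3 hk hk').mono (min_le_right _ _)
  · exact EUT.mono (min_le_left _ _) (hK k h3)

end Pool.Agent.Helper3.AK
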