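import Pool.Agent.Helper3.AK.Defs

/-!
# Project AK, definitions for the base case (two generators)

A reduced random word is generated letter by letter (`ER`).  For a word `g` and a set `S` of
starting points, `Kn t` is the set of the darts (vertex, letter) known at time `t`.
-/

set_option linter.unusedVariables false

namespace Pool.Agent.Helper3.AK

open Equiv

variable {n r : ℕ}

/-- positions: `pz 0 = 1`, `pz (t + 1) = letter g_t * pz t` -/
def pz (x : Fin 2 → Alt n) (g : ℕ → Letter 2) : ℕ → Perm (Fin n)
  | 0 => 1
  | t + 1 => lett x (g t) * pz x g t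

/-- reduced up to time `m` -/
def Red (g : ℕ → Letter 2) (m : ℕ) : Prop := ∀ t, t + 1 < m → g (t + 1) ≠ flip (g t)

/-- darts known at time `t`: the dart `(v, l)` is the edge from `v` to `lett x l v` -/
def Kn (x : Fin 2 → Alt n) (g : ℕ → Letter 2) (S : Finset (Fin n)) (t : ℕ) :
    Finset (Fin n × Letter 2) :=
  (Finset.range t).biUnion fun s =>
    S.image (fun p => (pz x g s p, g s)) ∪ S.image (fun p => (pz x g (s + 1) p, flip (g s)))

/-- vertices visited up to time `t` (inclusive) -/
def Vis (x : Fin 2 → Alt n) (g : ℕ → Letter 2) (S : Finset (Fin n)) (t : ℕ) : Finset (Fin n) :=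
  (Finset.range (t + 1)).biUnion fun s => S.image (fun p => pz x g s p)

/-- known letters at `v` -/
def Lt (x : Fin 2 → Alt n) (g : ℕ → Letter 2) (S : Finset (Fin n)) (t : ℕ) (v : Fin n) :
    Finset (Letter 2) :=
  Finset.univ.filter fun l => (v, l) ∈ Kn x g S t

/-- twice the number of coincidences (new edges ending at visited vertices) up to time `t` -/
def ex (x : Fin 2 → Alt n) (g : ℕ → Letter 2) (S : Finset (Fin n)) (t : ℕ) : ℤ :=
  (Kn x g S t).card - 2 * (Vis x g S t).card + 2 * S.card

/-- vertices all of whose four darts are known -/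
def full (x : Fin 2 → Alt n) (g : ℕ → Letter 2) (S : Finset (Fin n)) (t : ℕ) : Finset (Fin n) :=
  Finset.univ.filter fun v => Lt x g S t v = Finset.univ

/-- the potential `∑_v (|L(v)| - 2)⁺ + #{v ∈ S : |L(v)| ≥ 2}` -/
def pot (x : Fin 2 → Alt n) (g : ℕ → Letter 2) (S : Finset (Fin n)) (t : ℕ) : ℕ :=
  ∑ v, ((Lt x g S t v).card - 2) + (S.filter fun v => 2 ≤ (Lt x g S t v).card).card

/-- `p` is at time `t` at a vertex visited before time `t` -/
def rider (x : Fin 2 → Alt n) (g : ℕ → Letter 2) (S : Finset (Fin n)) (t : ℕ) (p : Fin n) :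
    Prop := ∃ s < t, ∃ q ∈ S, pz x g s q = pz x g t p

/-- the permutation of a finite word (first letter applied first) -/
def wl (x : Fin 2 → Alt n) : List (Letter 2) → Perm (Fin n)
  | [] => 1
  | l :: w => wl x w * lett x l

/-- `γ` is reduced and may follow the letter `l` -/
def Ok (l : Letter 2) (γ : List (Letter 2)) : Prop :=
  (l :: γ).IsChain fun a b => b ≠ flip a

/-- from the position of `p` at time `t` a word of length `≤ κ` which may follow the letter
`g (t - 1)` leads to a vertex which is not full at time `t` -/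
def shal (κ : ℕ) (x : Fin 2 → Alt n) (g : ℕ → Letter 2) (S : Finset (Fin n)) (t : ℕ)
    (p : Fin n) : Prop :=
  ∃ γ : List (Letter 2), γ.length ≤ κ ∧ Ok (g (t - 1)) γ ∧
    wl x γ (pz x g t p) ∉ full x g S t

open Classical in
/-- number of riders at time `t` -/
noncomputable def rid (x : Fin 2 → Alt n) (g : ℕ → Letter 2) (S : Finset (Fin n)) (t : ℕ) : ℕ :=
  (S.filter fun p => rider x g S t p).card

open Classical in
/-- number of shallow riders at time `t` -/
noncomputable def sh (κ : ℕ) (x : Fin 2 → Alt n) (g : ℕ → Letter 2) (S : Finset (Fin n))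
    (t : ℕ) : ℕ :=
  (S.filter fun p => rider x g S t p ∧ shal κ x g S t p).card

/-- letters allowed after the word `w` -/
def nxt (w : List (Letter 2)) : Finset (Letter 2) :=
  match w.getLast? with
  | none => Finset.univ
  | some l => Finset.univ.erase (flip l)

/-- expectation over the extensions of `w` by `t` random letters (uniform among the allowed ones) -/
noncomputable def ER : ℕ → List (Letter 2) → (List (Letter 2) → ℝ) → ℝ
  | 0, w, F => F w
  | t + 1, w, F => ((nxt w).card : ℝ)⁻¹ * ∑ l ∈ nxt w, ER t (w ++ [l]) F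

/-- reduced finite word -/
def RedL (w : List (Letter 2)) : Prop := w.IsChain fun a b => b ≠ flip a

/-- a finite word as an infinite sequence -/
def gl (w : List (Letter 2)) (t : ℕ) : Letter 2 := w.getD t (0, false)

/-! ### basic facts -/

theorem flip_flip (l : Letter 2) : flip (flip l) = l := by
  simp [flip]

theorem flip_ne (l : Letter 2) : flip l ≠ l := by
  intro h
  have := congrArg Prod.snd h
  simp [flip] at this

theorem lett_flip (x : Fin 2 → Alt n) (l : Letter 2) : lett x (flip l) = (lett x l)⁻¹ := by
  unfold lett flip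
  cases l.2 <;> simp

theorem nxt_card_pos (w : List (Letter 2)) : 0 < (nxt w).card := by
  unfold nxt
  split
  · decide
  · rw [Finset.card_erase_of_mem (Finset.mem_univ _)]
    decide

theorem nxt_card_ne (w : List (Letter 2)) : ((nxt w).card : ℝ) ≠ 0 := by
  have := nxt_card_pos w
  positivity

theorem nxt_nil : nxt [] = Finset.univ := rfl

theorem nxt_append (w : List (Letter 2)) (l : Letter 2) :
    nxt (w ++ [l]) = Finset.univ.erase (flip l) := by
  unfold nxt
  simp

theorem nxt_append_card (w : List (Letter 2)) (l : Letter 2) : (nxt (w ++ [l])).card = 3 := by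
  rw [nxt_append, Finset.card_erase_of_mem (Finset.mem_univ _)]
  decide

theorem nxt_card (w : List (Letter 2)) (hw : w ≠ []) : (nxt w).card = 3 := by
  rcases List.eq_nil_or_concat w with h | ⟨w', l, h⟩
  · exact absurd h hw
  · rw [h]
    simpa using nxt_append_card w' l

theorem mem_nxt {w : List (Letter 2)} {l : Letter 2} :
    l ∈ nxt w ↔ ∀ a ∈ w.getLast?, l ≠ flip a := by
  unfold nxt
  split
  · rename_i h; simp [h]
  · rename_i a h; simp [h]

theorem redL_append {w : List (Letter 2)} (hw : RedL w) {l : Letter 2} (hl : l ∈ nxt w) :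
    RedL (w ++ [l]) := by
  unfold RedL at *
  rw [List.isChain_append]
  refine ⟨hw, by simp, ?_⟩
  intro a ha b hb
  simp only [List.head?_cons, Option.mem_def, Option.some.injEq] at hb
  subst hb
  exact mem_nxt.1 hl a ha

theorem er_zero (w : List (Letter 2)) (F : List (Letter 2) → ℝ) : ER 0 w F = F w := rfl

theorem er_succ (t : ℕ) (w : List (Letter 2)) (F : List (Letter 2) → ℝ) :
    ER (t + 1) w F = ((nxt w).card : ℝ)⁻¹ * ∑ l ∈ nxt w, ER t (w ++ [l]) F := rfl

theorem er_add (t : ℕ) (w : List (Letter 2)) (F G : List (Letter 2) → ℝ) :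
    ER t w (fun v => F v + G v) = ER t w F + ER t w G := by
  induction t generalizing w with
  | zero => rfl
  | succ t ih => simp only [er_succ, ih, Finset.sum_add_distrib, mul_add]

theorem er_mul (t : ℕ) (w : List (Letter 2)) (a : ℝ) (F : List (Letter 2) → ℝ) :
    ER t w (fun v => a * F v) = a * ER t w F := by
  induction t generalizing w with
  | zero => rfl
  | succ t ih =>
    simp only [er_succ, ih, ← Finset.mul_sum]
    ring

theorem er_const (t : ℕ) (w : List (Letter 2)) (a : ℝ) : ER t w (fun _ => a) = a := by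
  induction t generalizing w with
  | zero => rfl
  | succ t ih =>
    simp only [er_succ, ih, Finset.sum_const, nsmul_eq_mul]
    rw [← mul_assoc, inv_mul_cancel₀ (nxt_card_ne w), one_mul]

theorem er_sum {ι : Type*} (A : Finset ι) (t : ℕ) (w : List (Letter 2))
    (F : ι → List (Letter 2) → ℝ) :
    ER t w (fun v => ∑ i ∈ A, F i v) = ∑ i ∈ A, ER t w (F i) := by
  induction t generalizing w with
  | zero => rfl
  | succ t ih =>
    simp only [er_succ, ih]
    rw [Finset.sum_comm, Finset.mul_sum]

theorem er_comp (s t : ℕ) (w : List (Letter 2)) (F : List (Letter 2) → ℝ) :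
    ER (s + t) w F = ER s w (fun v => ER t v F) := by
  induction s generalizing w with
  | zero => rw [Nat.zero_add]; rfl
  | succ s ih =>
    rw [Nat.succ_add, er_succ, er_succ]
    simp only [ih]

/-- monotonicity on the reduced extensions of `w` by `t` letters -/
theorem er_mono (t : ℕ) (w : List (Letter 2)) (hw : RedL w) (F G : List (Letter 2) → ℝ)
    (h : ∀ v, w <+: v → v.length = w.length + t → RedL v → F v ≤ G v) :
    ER t w F ≤ ER t w G := by
  induction t generalizing w with
  | zero => exact h w (List.prefix_refl _) rfl hw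
  | succ t ih =>
    rw [er_succ, er_succ]
    refine mul_le_mul_of_nonneg_left (Finset.sum_le_sum fun l hl => ?_) (by positivity)
    refine ih _ (redL_append hw hl) fun v hv hlen hr => ?_
    refine h v ((List.prefix_append _ _).trans hv) ?_ hr
    rw [hlen, List.length_append]
    simp only [List.length_singleton]
    omega

theorem er_congr (t : ℕ) (w : List (Letter 2)) (hw : RedL w) (F G : List (Letter 2) → ℝ)
    (h : ∀ v, w <+: v → v.length = w.length + t → RedL v → F v = G v) :
    ER t w F = ER t w G :=
  le_antisymm (er_mono t w hw F G fun v h1 h2 h3 => (h v h1 h2 h3).le)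
    (er_mono t w hw G F fun v h1 h2 h3 => (h v h1 h2 h3).ge)

theorem er_nonneg (t : ℕ) (w : List (Letter 2)) (F : List (Letter 2) → ℝ) (h : ∀ v, 0 ≤ F v) :
    0 ≤ ER t w F := by
  induction t generalizing w with
  | zero => exact h w
  | succ t ih =>
    rw [er_succ]
    exact mul_nonneg (by positivity) (Finset.sum_nonneg fun l _ => ih _)

theorem redL_nil : RedL [] := by
  unfold RedL
  simp

theorem gl_prefix {w v : List (Letter 2)} (h : w <+: v) {t : ℕ} (ht : t < w.length) :
    gl v t = gl w t := by
  obtain ⟨u, rfl⟩ := h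
  unfold gl
  rw [List.getD_append _ _ _ _ ht]

theorem red_gl {w : List (Letter 2)} (hw : RedL w) : Red (gl w) w.length := by
  intro t ht
  unfold RedL at hw
  rw [List.isChain_iff_getElem] at hw
  have h := hw t ht
  unfold gl
  rw [List.getD_eq_getElem _ _ ht, List.getD_eq_getElem _ _ (by omega)]
  exact h

/-! everything at time `t` depends only on `g` at the times `< t` -/

variable {x : Fin 2 → Alt n} {g g' : ℕ → Letter 2} {S : Finset (Fin n)}

theorem pz_congr {t : ℕ} (h : ∀ s < t, g s = g' s) : pz x g t = pz x g' t := by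
  induction t with
  | zero => rfl
  | succ t ih =>
    simp only [pz]
    rw [h t (by omega), ih fun s hs => h s (by omega)]

theorem Kn_congr {t : ℕ} (h : ∀ s < t, g s = g' s) : Kn x g S t = Kn x g' S t := by
  unfold Kn
  refine Finset.biUnion_congr rfl fun s hs => ?_
  have hs' := Finset.mem_range.1 hs
  rw [h s hs', pz_congr (g := g) (g' := g') (t := s) fun i hi => h i (by omega),
    pz_congr (g := g) (g' := g') (t := s + 1) fun i hi => h i (by omega)]

theorem Vis_congr {t : ℕ} (h : ∀ s < t, g s = g' s) : Vis x g S t = Vis x g' S t := by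
  unfold Vis
  refine Finset.biUnion_congr rfl fun s hs => ?_
  have hs' := Finset.mem_range.1 hs
  rw [pz_congr (g := g) (g' := g') (t := s) fun i hi => h i (by omega)]

theorem Lt_congr {t : ℕ} (h : ∀ s < t, g s = g' s) (v : Fin n) :
    Lt x g S t v = Lt x g' S t v := by
  unfold Lt
  rw [Kn_congr h]

theorem ex_congr {t : ℕ} (h : ∀ s < t, g s = g' s) : ex x g S t = ex x g' S t := by
  unfold ex
  rw [Kn_congr h, Vis_congr h]

theorem full_congr {t : ℕ} (h : ∀ s < t, g s = g' s) : full x g S t = full x g' S t := by
  unfold full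
  simp only [Lt_congr (x := x) (S := S) h]

theorem pot_congr {t : ℕ} (h : ∀ s < t, g s = g' s) : pot x g S t = pot x g' S t := by
  unfold pot
  simp only [Lt_congr (x := x) (S := S) h]

theorem rider_congr {t : ℕ} (h : ∀ s < t, g s = g' s) (p : Fin n) :
    rider x g S t p ↔ rider x g' S t p := by
  unfold rider
  constructor
  · rintro ⟨s, hs, q, hq, he⟩
    refine ⟨s, hs, q, hq, ?_⟩
    rw [← pz_congr (g := g) (g' := g') (t := s) fun i hi => h i (by omega),
      ← pz_congr (g := g) (g' := g') h]
    exact he
  · rintro ⟨s, hs, q, hq, he⟩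
    refine ⟨s, hs, q, hq, ?_⟩
    rw [pz_congr (g := g) (g' := g') (t := s) fun i hi => h i (by omega),
      pz_congr (g := g) (g' := g') h]
    exact he

theorem shal_congr {t κ : ℕ} (ht : 1 ≤ t) (h : ∀ s < t, g s = g' s) (p : Fin n) :
    shal κ x g S t p ↔ shal κ x g' S t p := by
  unfold shal
  rw [full_congr h, pz_congr (g := g) (g' := g') h, h (t - 1) (by omega)]

theorem sh_congr {t κ : ℕ} (ht : 1 ≤ t) (h : ∀ s < t, g s = g' s) :
    sh κ x g S t = sh κ x g' S t := by
  classical
  unfold sh
  refine congrArg Finset.card (Finset.filter_congr fun p _ => ?_)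
  rw [rider_congr h p, shal_congr ht h p]

theorem rid_congr {t : ℕ} (h : ∀ s < t, g s = g' s) : rid x g S t = rid x g' S t := by
  classical
  unfold rid
  exact congrArg Finset.card (Finset.filter_congr fun p _ => rider_congr h p)

theorem zpos_one (x : Fin 2 → Alt n) (g : ℕ → Letter 2) (t : ℕ) :
    zpos x (fun _ => 1) g t = pz x g t := by
  induction t with
  | zero => rfl
  | succ t ih => simp only [zpos, pz, ih, mul_one]

end Pool.Agent.Helper3.AK
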