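import Pool.Agent.Helper3.AK.Defs

/-!
# Project AK, goals of sections 1 and 2 (reduction, frame bound, trace step, involution)

Every goal is a `def S_XXX : Prop`; a packet proves `theorem xxx : S_XXX`.
-/

set_option linter.unusedVariables false

namespace Pool.Agent.Helper3.AK

open Equiv

/-- **RED** (reduction to functions with vanishing marginals).
Proof. Trivial if `r = 0` (one tuple, so `φ = 0`).  `Wk z = tupleWalk z r` (`Wk_eq`) is symmetric
for `ip` (`ip φ (Act g ψ) = ip (Act g⁻¹ φ) ψ`) and preserves the subspace `E` of the functions with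
sum zero.  If the gap fails, `E ≠ 0` and the maximum `μ` of the Rayleigh quotient on `E` is
`> 1 - ε`; it is attained at an eigenvector `φ ∈ E`, `tupleWalk z r φ = μ φ` (spectral theorem, for
instance `IsSelfAdjoint.hasEigenvector_of_isMaxOn` or an orthonormal eigenbasis of the restriction
of `Wk z` to `E` in `EuclideanSpace`).  For a subset `J` of `Fin r` with `s` elements and an
embedding `e : Fin s ↪ Fin r` with range `J` put `φ_e (b) = ∑ φ a` over `a` with `a ∘ e = b`.  Then
`tupleWalk z s φ_e = μ φ_e` (reindexing by `a ↦ g ∘ a`).  For `s = r`, `e` = identity, `φ_e = φ ≠ 0`;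
for `s = 0` `φ_e = 0`.  Take `s` minimal such that some `φ_e ≠ 0`; then `1 ≤ s ≤ r` and every
marginal of `φ_e` is (up to the name of the index set) some `φ_{e'}` with `e' : Fin (s-1) ↪ Fin r`,
so it vanishes: `Zm φ_e` (the sum over `b` agreeing with `b₀` off `j` is the sum of `φ a` over the
`a` with `a (e i) = b₀ i` for all `i ≠ j`, which is `φ_{e'} (b₀ ∘ (succAbove j))` with
`e' = e ∘ succAbove j`; every such `a` has an injective restriction).  By hypothesis `μ ≤ 1 - ε`,
contradiction. -/
def S_RED : Prop := ∀ (n k r : ℕ) (z : Fin k → Alt n) (ε : ℝ),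
  (∀ s : ℕ, 1 ≤ s → s ≤ r → ∀ (f : Fn n s) (μ : ℝ), f ≠ 0 → Zm f → Wk z f = μ • f →
    μ ≤ 1 - ε) → TupleGap z r ε

/-- **FRI** (inclusion exclusion for functions with vanishing marginals).
`J` a set of coordinates, `a` a tuple.  For `K ⊆ J` let `S K` be the sum of `f b` over the injective
tuples `b` with `b = a` off `J`, `b i ∈ a(J)` for `i ∈ K`, `b i ∉ range a` for `i ∈ J \ K`.
For `j ∈ J \ K`: `S K + S (insert j K) = 0`: the sum over all `b` with the conditions at the
coordinates `≠ j` and no condition at `j` vanishes by `Zm f` (fiber it over the tuples with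
prescribed values off `j`); for such `b`, `b j` is not in `a(Jᶜ)` by injectivity, so either
`b j ∈ a(J)` or `b j ∉ range a`.  By induction on the cardinality of `K`,
`S K = (-1)^|K| S ∅`; for `K = J` this is the claim (a tuple `b` with `b = a` off `J` and
`b(J) ⊆ a(J)`; the condition in the second sum below is equivalent). -/
def S_FRI : Prop := ∀ (n r : ℕ) (f : Fn n r), Zm f → ∀ (J : Finset (Fin r)) (a : Fin r ↪ Fin n),
  ∑ b ∈ Finset.univ.filter (fun b : Fin r ↪ Fin n =>
      (∀ i, i ∉ J → b i = a i) ∧ ∀ i ∈ J, ∀ i', b i ≠ a i'), f b =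
    (-1) ^ J.card * ∑ b ∈ Finset.univ.filter (fun b : Fin r ↪ Fin n =>
      (∀ i, i ∉ J → b i = a i) ∧ ∀ i ∈ J, ∃ i' ∈ J, b i = a i'), f b

/-- **FR** (frame bound).  May assume S_FRI.
Proof. Write `c = (a, b)`, `b` an injective tuple with range disjoint from the range of `a`; for
fixed `a` there are `(n-r)_r = (n - r).descFactorial r` such `b`.  For `s` let `J = {i | s i}`:
`ip (tst c) f = ∑_s sgn s * f (pick c s)`, `sgn s = (-1)^|J|`, and `pick c s` is `a` off `J` and `b` on `J`.
Sum over `b` for fixed `a` and `J`, `|J| = j`: every injective tuple `b'` with `b' = a` off `J` and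
`b' i ∉ range a` on `J` is hit by the same number `(n - r - j)_{r - j}` of `b`; so by FRI
`∑_b ip (tst (a,b)) f = ∑_J (n-r-j)_{r-j} * S_a(J)`, `S_a(J) := ∑ f b'` over `b'` with `b' = a` off `J`,
`b'(J) ⊆ a(J)` (the signs cancel).  Divide by `(n-r)_r = (n-r)_j (n-r-j)_{r-j}`:
`E_b ip = ∑_J S_a(J) / (n-r)_j`.  The term `J = ∅` is `f a`.  By Schur (for every `J` and every `b'` the number of `a`
related to `b'` is `j!`, and conversely) `|∑_a f a * S_a(J)| ≤ j! ∑ f²`.  So
`∑_a f a * E_b ip ≥ (1 - ∑_{j≥1} binom(r,j) j!/(n-r)_j) ∑ f²`, and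
`binom(r,j) j!/(n-r)_j = (r)_j/(n-r)_j ≤ (r/(n-r))^j ≤ (1/4)^j`, sum over `j ≥ 1` at most `1/3`.
Cauchy: `(2/3)² ∑ f² ≤ ∑_a (E_b ip)² ≤ ∑_a (1/(n-r)_r) ∑_b ip²`.  (`n ≥ 5 r`.) -/
def S_FR : Prop := ∀ (n r : ℕ), 5 * r ≤ n → ∀ f : Fn n r, Zm f →
  (4 / 9) * ((n - r).descFactorial r : ℝ) * ∑ a, f a ^ 2 ≤ ∑ c : Pts n r, (ip (tst c) f) ^ 2

/-- **DDP** (product formula).
Proof. `ip (tst c) (Act w (tst c)) = ∑_{s, s'} sgn s * sgn s' * [w ∘ pick c s = pick c s']`
(`Act w (δ_{pick c s'})` evaluated at `pick c s`), the bracket is `∏_i [w (c (i, s i)) = c (i, s' i)]`,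
so the double sum is a product over `i` of the sum over `(s i, s' i) ∈ Bool × Bool`
(`Finset.prod_univ_sum` / `Fintype.piFinset`; e.g. sum over functions `Fin r → Bool × Bool`), which
is `DD c w i`.  Second claim: four indicators, `|DD| ≤ 2` since for a permutation `w` the indicators of
`w a = a`, `w b = a` exclude each other, and so on. -/
def S_DDP : Prop := ∀ (n r : ℕ) (c : Pts n r) (w : Perm (Fin n)),
  ip (tst c) (Act w (tst c)) = ∏ i, DD c w i ∧ ∀ i, |DD c w i| ≤ 2

/-- **TR** (trace step).  May assume S_FR.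
Proof. `∑_c ip (tst c) (G^{2q} (tst c)) = ∑_c ip (G^q (tst c)) (G^q (tst c))`, and by Cauchy
`ip (G^q t) (G^q t) * ip f f ≥ (ip (G^q t) f)² = (ip t (G^q f))² = μ^{2q} (ip t f)²`.  Sum over `c`, use FR
and divide by `ip f f > 0`. -/
def S_TR : Prop := ∀ (n r : ℕ), 5 * r ≤ n → ∀ G : Fn n r →ₗ[ℝ] Fn n r,
  (∀ φ ψ, ip φ (G ψ) = ip (G φ) ψ) → ∀ f : Fn n r, Zm f → f ≠ 0 → ∀ μ : ℝ, G f = μ • f → ∀ q : ℕ,
  (4 / 9) * ((n - r).descFactorial r : ℝ) * μ ^ (2 * q) ≤
    ∑ c : Pts n r, ip (tst c) ((G ^ (2 * q)) (tst c))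

/-- **INV** (the sign reversing involution).
Proof. Put `w x = u T * zpos x u g T`.  It suffices that `∑_x [¬ Mev] ∏_i DD = 0` (then
`|∑_x| ≤ ∑_x [Mev] ∏ |DD| ≤ 2^r #Mev`, `|DD| ≤ 2`).  For `x` with `¬ Mev` take the first pair `(t, i)` (any fixed
well order, e.g. least `t`, then least `i`) with both edges single, `j = (g t).1`,
`α = tail t (c (i,false))`, `β = tail t (c (i,true))` (different, `zpos` and `u t` are injective), and `γ < δ` the two
smallest points of `Fin n` which are not tails `tail t' (c q')` with `(g t').1 = j`, `t' < T` (at most `2 r T ≤ n - 2`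
tails).  `x' := ` `x` with `x_j` replaced by `x_j * swap α β * swap γ δ` (even again).  Claims, by induction on time:
(1) for `s ≤ t`: `zpos x' s p = zpos x s p` for the `2r` points `p = c q`; (2) for `s > t`, `s ≤ T`: `zpos x' s (c q) = zpos x s (c (σ q))`,
`σ` = exchange of `(i,false)` and `(i,true)`.  Reason: the passes at times `≠ t` use edges with tails different from
`α, β, γ, δ` (or of another generator), on which `x'` and `x` agree; at time `t` the two passes of `a_i`, `b_i` use the
edges with tails `α` and `β`, whose heads are exchanged (if `(g t).2 = false` the point at `α` goes to `x_j β`; if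
`(g t).2 = true` the point at `x_j α` goes to `(x_j swap α β swap γ δ)⁻¹ (x_j α) = β`).  (3) For every `s < T` and `i'` the unordered pair
of tails of `c (i',false)`, `c (i',true)` at time `s` is the same for `x` and `x'`; in fact `tail' s (c q) = tail s (c (τ_s q))`
with `τ_s ∈ {1, σ}`.  Hence `Single'` at `(s, q)` iff `Single` at `(s, τ_s q)`, the set of pairs `(s, i')` with both edges single is the
same, the first one `(t, i)` is the same, `{α', β'} = {α, β}`, `γ, δ` are the same, and `x'' = x`.  Finally `w x' (c q) = w x (c (σ q))`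
gives `DD c (w x') i = - DD c (w x) i` and `DD c (w x') i' = DD c (w x) i'` for `i' ≠ i`
(`i' ≠ i`: the values at `c (i', ·)` are the same).  So the map `x ↦ x'` is a fixed point free involution of
`{x | ¬ Mev}` under which the product changes its sign (`Finset.sum_involution`, or `∑ = - ∑`). -/
def S_INV : Prop := ∀ (n r K T : ℕ), 2 * r * T + 2 ≤ n → ∀ (c : Pts n r) (u : ℕ → Perm (Fin n))
  (g : ℕ → Letter K),
  |∑ x : Fin K → Alt n, ∏ i, DD c (u T * zpos x u g T) i| ≤
    2 ^ r * (Nat.card {x : Fin K → Alt n // Mev x u g T c} : ℝ)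

/-- **GG** (from tuples to the group).
Proof. The converse of the transfer in `Pool/Agent/Helper6/FixK/Rayleigh.lean` (`preTuple`,
`sum_preTuple`, `tupleGap_of_groupGap`; copy what is needed): for `r + 2 ≤ n` every `f` invariant
under left multiplication by the even permutations fixing the first `r` points is `φ ∘ preTuple`
with `preTuple g = (i ↦ g⁻¹ i)` (surjective onto the injective tuples, with fibers the right cosets
`H g`, `H` the stabilizer: `preTuple g = preTuple g'` iff `g' g⁻¹` fixes the first `r` points), all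
fibers have the same cardinality, and `walk z f = (tupleWalk z r φ) ∘ preTuple`
(`preTuple (g x) = x⁻¹ ∘ preTuple g`). -/
def S_GG : Prop := ∀ (n k r : ℕ), r + 2 ≤ n → ∀ (z : Fin k → Alt n) (ε : ℝ), TupleGap z r ε →
  GroupGap z r ε

end Pool.Agent.Helper3.AK
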