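import Pool.Agent.Helper3.AK.Goals1

/-!
# Project AK, goals of section 3 (the step with a fresh generator)
-/

set_option linter.unusedVariables false

namespace Pool.Agent.Helper3.AK

open Equiv

variable {n r k K : ℕ}

/-- extension of a finite sequence of permutations -/
def extP {m : ℕ} (u : Fin m → Perm (Fin n)) (t : ℕ) : Perm (Fin n) :=
  if h : t < m then u ⟨t, h⟩ else 1

/-- the alternating letters `y, y⁻¹, y, y⁻¹, …` (one generator) -/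
def alt1 (t : ℕ) : Letter 1 := (0, decide (t % 2 = 1))

/-- the constant family with one member -/
def one1 (y : Alt n) : Fin 1 → Alt n := fun _ => y

/-- **LZ** (the law of the lazy walk).
Proof. Induction on `m`: `Avg κ` is linear in `κ`; `∑_g κ (g z⁻¹) Act g = ∑_g κ g Act (g z) =
Act z * Avg κ` (`Act_mul`), the same with `z⁻¹`, so `Avg (lazyLaw z (m+1)) = Lz z * Avg (lazyLaw z m)`.
Positivity and total mass (`1/2 + (4k)⁻¹ * 2k = 1`, `k ≥ 1`): the same induction. -/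
def S_LZ : Prop := ∀ (n k r m : ℕ) (z : Fin k → Alt n), 1 ≤ k →
  (Avg (lazyLaw z m) : Fn n r →ₗ[ℝ] Fn n r) = Lz z ^ m ∧ (∀ g, 0 ≤ lazyLaw z m g) ∧
    ∑ g, lazyLaw z m g = 1

/-- **UR** (uniformity of a long lazy word on short tuples).  May assume S_LZ.
Proof. Let `j ≤ R`, `N = (n)_j` the number of tuples, `L = Lz z` on `Fn n j`.
`∑_{g ∘ a = b} κ g = (Avg κ δ_b) a = ip δ_a (L^m δ_b)`, `δ_b = 1/N + ψ`, `∑ ψ = 0`, `ip ψ ψ ≤ 1`, `L 1 = 1`, so this is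
`1/N + ip δ_a (L^m ψ) ≤ 1/N + |L^m ψ|`.  On the sum zero functions (preserved by `L`):
`0 ≤ ip φ (L φ) ≤ (1 - ε/2) ip φ φ` (`ip φ (Act g φ) ≥ - ip φ φ` by Cauchy; the gap at level `j`), hence
`|L φ| ≤ (1 - ε/2) |φ|` (Cauchy for the form `B(φ,ψ) = ip φ (L ψ) ≥ 0`:
`|Lφ|⁴ = B(φ, Lφ)² ≤ B(φ,φ) B(Lφ,Lφ) ≤ (1-ε/2)² |φ|² |Lφ|²`) and `|L^m ψ| ≤ (1 - ε/2)^m ≤ 1/(n)_R ≤ 1/N`
(`(n)_j ≤ (n)_R` for `j ≤ R ≤ n`).  The other fields of `Wise` are in S_LZ. -/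
def S_UR : Prop := ∀ (n k R m : ℕ) (z : Fin k → Alt n) (ε : ℝ), 1 ≤ k → R ≤ n → 0 < ε → ε ≤ 1 →
  (∀ h ≤ R, TupleGap z h ε) → (1 - ε / 2) ^ m ≤ 1 / (n.descFactorial R : ℝ) →
  Wise (lazyLaw z m) R

/-- **OPA** (operator lemma, abstract).
`L` symmetric with `0 ≤ L ≤ 1`, `Y` an isometry with inverse `Z`.  If `f ≠ 0` is almost invariant under
`L` and `Y` then `G = L^m Y L^{2m} Z L^m` has an eigenvalue `≥ (1-ε₁)^{4m} / 4`.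
Proof. May assume `|f| = 1`.  Orthonormal eigenbasis `e_i` of `L`, eigenvalues `μ_i ∈ [0,1]`; `Q` = projection to the
span of the `e_i` with `μ_i ≥ 1 - ε₁`; `f₁ = Q f`: `ε₁ |f - f₁|² ≤ ∑ (1-μ_i) ⟨f,e_i⟩² = 1 - ⟨L f,f⟩ ≤ a`, so
`|f - f₁| ≤ √(a/ε₁) ≤ 1/8`, `|f₁| ≥ 7/8`.  `|Z f₁ - f₁| = |f₁ - Y f₁| ≤ |f - Y f| + 2 |f - f₁| ≤ √b + 2√(a/ε₁) ≤ 1/4`.
`v = ∑_{μ_i ≥ 1-ε₁} μ_i^{-m} ⟨f,e_i⟩ e_i`: `L^m v = f₁`, `|v| ≤ (1-ε₁)^{-m} |f₁|`, `v ≠ 0`.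
`⟨G v, v⟩ = ⟨L^{2m} Z f₁, Z f₁⟩ = |L^m Z f₁|² ≥ |L^m Q Z f₁|² ≥ (1-ε₁)^{2m} |Q Z f₁|²`, and
`|Q Z f₁| ≥ |f₁| - |Z f₁ - f₁| ≥ |f₁| / 2`.  So `⟨G v, v⟩ ≥ (1-ε₁)^{4m}/4 |v|²`; `G` is symmetric
(`⟨Y v, w⟩ = ⟨v, Z w⟩`), so its largest eigenvalue is at least this. -/
def S_OPA : Prop := ∀ (E : Type) [NormedAddCommGroup E] [InnerProductSpace ℝ E]
  [FiniteDimensional ℝ E] (L Y Z : E →ₗ[ℝ] E) (m : ℕ) (ε₁ a b : ℝ),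
  (∀ v w, inner ℝ (L v) w = inner ℝ v (L w)) → (∀ v, 0 ≤ inner ℝ (L v) v) →
  (∀ v, inner ℝ (L v) v ≤ ‖v‖ ^ 2) → (∀ v, ‖Y v‖ = ‖v‖) → (∀ v, Y (Z v) = v) →
  (∀ v, Z (Y v) = v) → 0 < ε₁ → ε₁ < 1 → 0 ≤ a → 0 ≤ b → √b + 2 * √(a / ε₁) ≤ 1 / 4 →
  ∀ f : E, f ≠ 0 → (1 - a) * ‖f‖ ^ 2 ≤ inner ℝ (L f) f → ‖Y f - f‖ ^ 2 ≤ b * ‖f‖ ^ 2 →
  ∃ (v : E) (lam : ℝ), v ≠ 0 ∧ ((L ^ m) * Y * (L ^ (2 * m)) * Z * (L ^ m)) v = lam • v ∧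
    (1 - ε₁) ^ (4 * m) / 4 ≤ lam

/-- **OP** (operator lemma for the walk).  May assume S_OPA.
Proof. Apply S_OPA to the subspace `{Zm}` of `EuclideanSpace ℝ (Fin r ↪ Fin n)` (all `Act g` preserve `Zm`:
reindex by `b ↦ g ∘ b`), `L = Lz z`, `Y = Act y`, `Z = Act y⁻¹`, `b = 2 (k+1) a`.
`Wk (snoc z y) = (k/(k+1)) Wk z + (1/(2(k+1))) (Y + Z)` (`Fin.sum_univ_castSucc`).  With `|f| = 1`, `w = ⟨f, Wk z f⟩ ≤ 1`,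
`η = ⟨f, Y f⟩ = ⟨f, Z f⟩ ≤ 1`: `μ = (k w + η)/(k+1) ≥ 1 - a` gives `1 - w ≤ a (k+1)/k ≤ 2 a`, so
`⟨f, L f⟩ = (1+w)/2 ≥ 1 - a`, and `1 - η ≤ (k+1) a`, `|Y f - f|² = 2 - 2 η ≤ 2 (k+1) a`. -/
def S_OP : Prop := ∀ (n k r m : ℕ) (z : Fin k → Alt n) (y : Alt n) (ε₁ a : ℝ), 1 ≤ k → 0 < ε₁ →
  ε₁ < 1 → 0 ≤ a → √(2 * (k + 1) * a) + 2 * √(a / ε₁) ≤ 1 / 4 →
  ∀ (f : Fn n r) (μ : ℝ), f ≠ 0 → Zm f →
    (Wk (Fin.snoc (α := fun _ => Alt n) z y) : Fn n r →ₗ[ℝ] Fn n r) f = μ • f → 1 - a ≤ μ →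
  ∃ (v : Fn n r) (lam : ℝ), v ≠ 0 ∧ Zm v ∧ Gop z y m v = lam • v ∧
    (1 - ε₁) ^ (4 * m) / 4 ≤ lam

/-- the laws of the blocks -/
noncomputable def wgt (z : Fin k → Alt n) (m T t : ℕ) : Perm (Fin n) → ℝ :=
  lazyLaw z (if t = 0 ∨ t = T then m else 2 * m)

/-- **EX** (expansion of the power).  May assume S_LZ.
Proof. Induction on `q ≥ 1`, or directly: `Gop ^ q` is the alternating product
`L^m Y L^{2m} Y⁻¹ L^{2m} Y ⋯ Y⁻¹ L^m` with `2 q` factors `Y^{±1}`; `L^j = Avg (lazyLaw z j)` (S_LZ);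
`Act` is antimultiplicative (`Act_mul`): `Act u₀ * Act y * Act u₁ * Act y⁻¹ * ⋯ = Act (⋯ y⁻¹ * u₁ * y * u₀)`.
Suggestion: prove first, by induction on `T`, for arbitrary weights `κ_t` and the sequence of letters
`g = alt1`: `Avg κ_0 * Act (y₀) * Avg κ_1 * ⋯ * Act (y_{T-1}) * Avg κ_T = ∑_u (∏ κ_t (u t)) • Act (u_T * zpos T)`
(`y_t` = `y` or `y⁻¹`, `Fin.snocEquiv` / `Fin.consEquiv` for the sum over `u : Fin (T+1) → Perm (Fin n)`;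
`zpos` up to `T` depends only on `u` restricted to `t < T`).  For `T = 2 q` and the weights `wgt` the left side is
`Gop ^ q` (`L^m * L^m = L^{2m}` at the junctions). -/
def S_EX : Prop := ∀ (n k r m q : ℕ) (z : Fin k → Alt n) (y : Alt n), 1 ≤ k → 1 ≤ q →
  (Gop z y m : Fn n r →ₗ[ℝ] Fn n r) ^ q =
    ∑ u : Fin (2 * q + 1) → Perm (Fin n), (∏ t : Fin (2 * q + 1), wgt z m (2 * q) t (u t)) •
      Act (extP u (2 * q) * zpos (one1 y) (extP u) alt1 (2 * q))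

/-- **CTA** (one block).
Proof. For an injective family `p` of `M` points and a set `A` with `|A| ≤ N ≤ n` let `F g` be the number of `i` with `g (p i) ∈ A`.
`∑_g κ g * binom (F g, h) = ∑_{S, |S| = h} ∑_{q : S ↪ A} κ{g : g ∘ p = q on S} ≤ binom (M,h) (N)_h 2/(n)_h` and
`(N)_h/(n)_h ≤ (N/n)^h`.  On `F g ≥ f₀`: `binom (F g, h) ≥ binom (f₀, h)`, and
`binom (M,h)/binom (f₀,h) = ∏_{i<h} (M-i)/(f₀-i) ≤ (M/(f₀-h+1))^h ≤ (2 M/f₀)^h` (`2 h ≤ f₀ ≤ M`; note `(M-i)/(f₀-i) ≤ M/(f₀-i)`). -/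
def S_CTA : Prop := ∀ (n R h M f₀ N : ℕ) (κ : Perm (Fin n) → ℝ), Wise κ R → h ≤ R → 2 * h ≤ f₀ →
  1 ≤ f₀ → N ≤ n → ∀ (p : Fin M ↪ Fin n) (A : Finset (Fin n)), A.card ≤ N →
  ∑ g ∈ Finset.univ.filter (fun g : Perm (Fin n) =>
      f₀ ≤ (Finset.univ.filter (fun i => g (p i) ∈ A)).card), κ g ≤
    2 * ((2 * (M : ℝ) / f₀) * (N / n)) ^ h

/-- the number of passes at time `t` over edges passed before -/
noncomputable def rep (x : Fin K → Alt n) (u : ℕ → Perm (Fin n)) (g : ℕ → Letter K) (c : Pts n r)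
    (t : ℕ) : ℕ :=
  Nat.card {q : Fin r × Bool // ∃ t' < t, ∃ q' : Fin r × Bool, (g t').1 = (g t).1 ∧
    tail x u g t' (c q') = tail x u g t (c q)}

/-- **CTB** (many repeated passes).
Proof. Let `A` be the set of the pairs `(t, q)`, `t < T`, with `¬ Single t q`; `Mev` gives `r T ≤ |A|`.  The edge of
`(t,q)` is `((g t).1, tail t (c q))`.  Two passes at the same time have different edges (`zpos t`, `u t`, `c` are injective,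
the letter is the same).  Group `A` by edges: a class has `μ ≥ 2` elements (a nonsingle pass and its partner have the
same edge and both are in `A`), at different times, so all of them except the earliest are counted by `rep`:
`μ - 1 ≥ μ/2`.  Sum: `∑_t rep t ≥ |A|/2`. -/
def S_CTB : Prop := ∀ (n r K T : ℕ) (x : Fin K → Alt n) (u : ℕ → Perm (Fin n)) (g : ℕ → Letter K)
  (c : Pts n r), Mev x u g T c → r * T ≤ 2 * ∑ t ∈ Finset.range T, rep x u g c t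

/-- **CT** (the probability of `Mev` for a fixed `y`).  May assume S_CTA, S_CTB.
Proof. `T = 8 T'`.  `rep t ≤ 2 r`.  If `Mev` then `#{t < T : r ≤ 8 rep t} ≥ T'`: otherwise
`∑ rep ≤ 2 r (T'-1) + (r/8) 8 T' < 4 r T' = r T/2`, against CTB.  So `[Mev] ≤ ∑_{S ⊆ range T, |S| = T'} ∏_{t ∈ S} [r ≤ 8 rep t]`.
For fixed `S`: `E ∏_{t∈S} [r ≤ 8 rep t] ≤ p^{T'}`, `p = 2 (64 r T/n)^{R/16}`, by summing over `u_T, u_{T-1}, …, u_0` successively: `rep t`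
depends only on `u_0, …, u_t`, and for fixed `u_0, …, u_{t-1}` it is the number of `q` with `u_t (zpos t (c q)) ∈ A_t`, where
`A_t` = set of the tails of the passes before `t` if `alt1 t` is `y`, and its image under `y` if `alt1 t` is `y⁻¹`
(`tail t = y⁻¹ (u_t zpos_t)`); `|A_t| ≤ 2 r t ≤ 2 r T ≤ n`.  By CTA with `M = 2 r` (enumerate `Fin r × Bool`), `f₀ = ⌈r/8⌉`, `h = R/16`
(`2 h ≤ R/8 ≤ r/8 ≤ f₀`), `N = 2 r T` the conditional probability of `r ≤ 8 rep t` is at most `2 ((4r/f₀) (2rT/n))^h ≤ p`.  The number of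
`S` is at most `2^T`. -/
def S_CT : Prop := ∀ (n r R T' : ℕ), 16 ≤ R → R ≤ r → 1 ≤ T' → 2 * r * (8 * T') ≤ n →
  ∀ (κ : ℕ → Perm (Fin n) → ℝ), (∀ t ≤ 8 * T', Wise (κ t) R) → ∀ (y : Alt n) (c : Pts n r),
  ∑ u : Fin (8 * T' + 1) → Perm (Fin n), (open Classical in
      if Mev (one1 y) (extP u) alt1 (8 * T') c then (∏ t : Fin (8 * T' + 1), κ t (u t)) else 0) ≤
    2 ^ (8 * T') * (2 * (64 * r * (8 * T') / n : ℝ) ^ (R / 16)) ^ T'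

/-- a bad eigenfunction at level `r` -/
def BadLev (z : Fin k → Alt n) (r : ℕ) (a : ℝ) : Prop :=
  ∃ (f : Fn n r) (μ : ℝ), f ≠ 0 ∧ Zm f ∧ Wk z f = μ • f ∧ 1 - a < μ

/-- **FL** (one level).  May assume S_TR, S_DDP, S_INV, S_OP, S_EX, S_CT.
Proof. `λ₀ = (1-ε₁)^{4m}/4`, `q = 4 T'`, `T = 2 q = 8 T'`.  `Gop` is symmetric for `ip` (`Lz` is, `ip φ (Act g ψ) = ip (Act g⁻¹ φ) ψ`).
If `y` is bad, OP gives an eigenfunction `v` (`Zm`) of `Gop z y m` with eigenvalue `≥ λ₀ ≥ 0`, and TR (exponent `2·(2T')`)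
`(4/9) (n-r)_r λ₀^{4T'} ≤ Φ(y) := ∑_c ip (tst c) (Gop^{4T'} (tst c))`.  `Φ(y) ≥ 0` for every `y` (even power of a symmetric
operator).  So `#bad * (4/9) (n-r)_r λ₀^{4T'} ≤ ∑_y Φ(y)`.  By EX and DDP
`∑_y Φ(y) = ∑_c ∑_u (∏ wgt) ∑_y ∏_i DD c (u_T zpos_T) i`, weights `≥ 0` (Wise), and by INV with one generator
(`Fin 1 → Alt n` is `Alt n`; `x = one1 (x 0)`) the inner sum is at most `2^r #{y : Mev}`.  Exchange the sums and use CT for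
every `y`, `c` (`wgt` at times `≤ 8T'` is `Wise … R`): `∑_y Φ ≤ 2^r |A_n| (n)_{2r} P`, `P` = bound of CT, the number of `c` is
`(n)_{2r} = (n)_r (n-r)_r`, `(n)_r ≤ n^r`.  Divide by `(n-r)_r > 0`. -/
def S_FL : Prop := ∀ (n k r R m T' : ℕ) (z : Fin k → Alt n) (ε₁ a : ℝ), 1 ≤ k → 16 ≤ R → R ≤ r →
  1 ≤ T' → 5 * r ≤ n → 2 * r * (8 * T') + 2 ≤ n → Wise (lazyLaw z m) R →
  Wise (lazyLaw z (2 * m)) R → 0 < ε₁ → ε₁ < 1 → 0 ≤ a →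
  √(2 * (k + 1) * a) + 2 * √(a / ε₁) ≤ 1 / 4 →
  (Nat.card {y : Alt n // BadLev (Fin.snoc (α := fun _ => Alt n) z y) r a} : ℝ) *
      ((1 - ε₁) ^ (4 * m) / 4) ^ (4 * T') ≤
    Nat.card (Alt n) * ((9 / 4) * (n : ℝ) ^ r * 2 ^ r *
      (2 ^ (8 * T') * (2 * (64 * r * (8 * T') / n : ℝ) ^ (R / 16)) ^ T'))

/-- **NUMF** (numbers for the fresh step).
Proof. Put `γ = 1 + α - 2 α' > 0` (so `α' < 1`), `R = ⌊n^α⌋ ≥ n^α/2`.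
(1) `C = 4/ε`, `m := ⌈C R log n⌉`: `(1-ε/2)^m ≤ e^{-εm/2} ≤ n^{-2R} ≤ 1/(n)_R`, and `m ≤ 2 C R log n` for large `n`.
(2) `K₀ := ⌈640/γ⌉`, `T' := ⌈K₀ r/R⌉`, `K₀ r/R ≤ T' ≤ 2 K₀ r/R` (`r > R`).  `x := 64 r (8T')/n ≤ 1024 K₀ r²/(R n) ≤ 2048 K₀ n^{2α'-α-1} = 2048 K₀ n^{-γ} ≤ n^{-γ/2}`
for large `n`; this gives also `2 r (8T') + 2 ≤ n`.  `5 r ≤ n` since `α' < 1`.
(3) `(R/16 : ℕ) ≥ R/32`: `x^{(R/16) T'} ≤ n^{-(γ/2)(R/32)(K₀ r/R)} = n^{-γ K₀ r/64} ≤ n^{-10 r}`.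
(4) `ε₁ := min (1/2) (1/(128 C K₀))`: `1 - ε₁ ≥ e^{-2ε₁}`, `m T' ≤ 4 C K₀ r log n`, so `(1-ε₁)^{16 m T'} ≥ n^{-128 ε₁ C K₀ r} ≥ n^{-r}`.
(5) The constants: `(9/4) 2^r 2^{8T'} 2^{T'} 4^{4T'} = (9/4) 2^{r + 17 T'} ≤ (9/4) 4^r ≤ n^r` for large `n` (`17 T' ≤ 34 K₀ r/R ≤ r`).
So left side / right side `≤ n^r n^{-10r} n^r n^r n^2 ≤ 1` (`r ≥ 1`).  (6) `a` small: `√(2(k+1)a) + 2√(a/ε₁) ≤ 1/4`, e.g.
`a = ε₁/(1024 (k+1))` (`√(2(k+1)a) ≤ √(1/512)`, `2√(a/ε₁) ≤ 2/32`; sum `< 0.045 + 0.063`). -/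
def S_NUMF : Prop := ∀ (k : ℕ) (α α' ε : ℝ), 0 < α → α < α' → α' < (1 + α) / 2 → α < 1 → 0 < ε →
  ε ≤ 1 → ∃ ε₁ a : ℝ, 0 < ε₁ ∧ ε₁ < 1 ∧ 0 < a ∧ √(2 * (k + 1) * a) + 2 * √(a / ε₁) ≤ 1 / 4 ∧
  ∀ᶠ n : ℕ in Filter.atTop, ∀ r : ℕ, ⌊(n : ℝ) ^ α⌋₊ < r → (r : ℝ) ≤ (n : ℝ) ^ α' →
    ∃ m T' : ℕ, 16 ≤ ⌊(n : ℝ) ^ α⌋₊ ∧ 1 ≤ T' ∧ 5 * r ≤ n ∧ 2 * r * (8 * T') + 2 ≤ n ∧
      (1 - ε / 2) ^ m ≤ 1 / (n.descFactorial ⌊(n : ℝ) ^ α⌋₊ : ℝ) ∧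
      (9 / 4) * (n : ℝ) ^ r * 2 ^ r * (2 ^ (8 * T') *
        (2 * (64 * r * (8 * T') / n : ℝ) ^ (⌊(n : ℝ) ^ α⌋₊ / 16)) ^ T') ≤
      ((n : ℝ) ^ 2)⁻¹ * ((1 - ε₁) ^ (4 * m) / 4) ^ (4 * T')

/-- **STEP** (the step with a fresh generator).  May assume S_RED, S_UR, S_FL, S_NUMF.
Proof. `TupleGap` is monotone in `ε` (for `ε₂ ≤ ε₁`: `(1-ε₁) ∑ φ² ≤ (1-ε₂) ∑ φ²`), so assume `ε ≤ 1`, and `α' > α` (replace `α'` by a number between `max α α'` and `(1+α)/2`;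
`Whp` is monotone in `α` for `n ≥ 1`).  `R = ⌊n^α⌋`.  Let `z` be good (`TupleGap z h ε` for all `h ≤ R`; these are the `h` with `(h:ℝ) ≤ n^α`).  For
`R < s ≤ n^{α'}`: by NUMF, UR (for `m` and `2 m`: `(1-ε/2)^{2m} ≤ (1-ε/2)^m`) and FL the number of `y` with `BadLev (snoc z y) s a` is at most `|A_n|/n²`.  The number of such `s` is at most
`n`, so at most `|A_n|/n` bad `y`.  For good `z` and good `y` and `(r:ℝ) ≤ n^{α'}`: `TupleGap (snoc z y) r ε'` with `ε' = min a (ε k/(k+1))` by RED: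
let `f` be an eigenfunction (`Zm`, `f ≠ 0`, level `1 ≤ s ≤ r`) with eigenvalue `μ`; if `s > R`, `μ ≤ 1 - a`; if `s ≤ R`, `∑ f = 0` (`Zm`, `s ≥ 1`),
`(k+1) μ ∑ f² = k ip f (Wk z f) + (ip f (Y f) + ip f (Y⁻¹ f))/2 ≤ (k (1-ε) + 1) ∑ f²`.  So the number of good families of length `k+1` is at least `#good z * |A_n| (1 - 1/n)`
(bijection `Fin (k+1) → Alt n ≃ (Fin k → Alt n) × Alt n`, `Fin.snocEquiv`), and the proportion tends to one. -/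
def S_STEP : Prop := ∀ (k : ℕ) (α ε : ℝ), 1 ≤ k → 0 < α → α < 1 → 0 < ε → Whp k α ε →
  ∀ α' : ℝ, α' < (1 + α) / 2 → ∃ ε' : ℝ, 0 < ε' ∧ Whp (k + 1) α' ε'

end Pool.Agent.Helper3.AK
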