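import Pool.Agent.Helper3.AK.BDefs
import Pool.Agent.Helper3.AK.Goals1

/-!
# Project AK, goals of section 4 (the base case: two generators, `r ≤ n ^ (1/3 - δ)`)
-/

set_option linter.unusedVariables false

namespace Pool.Agent.Helper3.AK

open Equiv

variable {n r K : ℕ}

/-- **RW** (powers of the walk operator and reduced words).
Proof. Let `A_j φ ψ = ER j [] (fun w => ip φ (Act (pz z (gl w) j) ψ))`.  `Wk z = (1/4) ∑_l Act (lett z l)` (`k = 2`).  Induction on `N`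
for all `ψ`: `Wk z ^ (N+1) ψ = Wk z ^ N (Wk z ψ)`, so it suffices that
`A_j φ (Wk z ψ) = (3/4) A_{j+1} φ ψ + (1/4) A_{j-1} φ ψ` for `j ≥ 1` and `A_0 φ (Wk z ψ) = A_1 φ ψ`.  Since
`Act (pz j) (Act (lett l) ψ) = Act (lett l * pz j) ψ`, `A_j φ (Wk z ψ) = ER j [] (w ↦ (1/4) ∑_l ip φ (Act (lett z l * pz z (gl w) j) ψ))`; for `w` of
length `j ≥ 1` with last letter `a` the three `l ≠ flip a` are the allowed ones (`lett z l * pz z (gl w) j = pz z (gl (w ++ [l])) (j+1)`)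
and give `(3/4)` of the average over `nxt w` (`er_comp` with `t = 1`), and `l = flip a` gives `pz z (gl w) (j-1)`, a function of the
first `j - 1` letters: `ER j [] (F ∘ (take (j-1))) = ER (j-1) [] F`.  For `j = 0` all four letters are allowed.
The coefficients: `c^0 = δ_0`, `c^{N+1}_j = (3/4) c^N_{j-1} [j ≥ 2] + c^N_0 [j = 1] + (1/4) c^N_{j+1}` (for `j ≥ 0`; the term `(1/4) c^N_{j+1}` for `j + 1 ≥ 1`).
`∑ c_j = 1`.  With `θ = 1/√3`: `(3/4) θ^{j+1} + (1/4) θ^{j-1} = (√3/2) θ^j` for `j ≥ 1` and `θ ≤ √3/2` for `j = 0`, so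
`∑ c^{N+1}_j θ^j ≤ (√3/2) ∑ c^N_j θ^j`. -/
def S_RW : Prop := ∀ N : ℕ, ∃ c : ℕ → ℝ, (∀ j, 0 ≤ c j) ∧ ∑ j ∈ Finset.range (N + 1), c j = 1 ∧
  ∑ j ∈ Finset.range (N + 1), c j * (1 / √3) ^ j ≤ (√3 / 2) ^ N ∧
  ∀ (n r : ℕ) (z : Fin 2 → Alt n) (φ ψ : Fn n r), ip φ ((Wk z ^ N) ψ) =
    ∑ j ∈ Finset.range (N + 1), c j * ER j [] (fun w => ip φ (Act (pz z (gl w) j) ψ))

/-- **EXT** (even permutations with prescribed values).
Proof. By induction on `|A|`, from `|A| + 1` prescribed values to `|A|`: or: the even permutations act transitively on the injective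
`s`-tuples for `s ≤ n - 2` (multiply by a transposition of two points outside), so all fibers of
`g ↦ (g v_1, …, g v_s)` have the same number of elements `(n!/2)/(n)_s = (n-s)!/2`.  (See `sum_preTuple`,
`exists_alt_preTuple` in Pool/Agent/Helper6/FixK/Rayleigh.lean for a model.) -/
def S_EXT : Prop := ∀ (n : ℕ) (A : Finset (Fin n × Fin n)),
  (∀ a ∈ A, ∀ b ∈ A, a.1 = b.1 → a = b) → (∀ a ∈ A, ∀ b ∈ A, a.2 = b.2 → a = b) →
  A.card + 2 ≤ n → 2 * Nat.card {g : Alt n // ∀ a ∈ A, (g : Perm (Fin n)) a.1 = a.2} =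
    (n - A.card).factorial

/-- answers to the first `τ` adaptive queries (`Q s` is the dart asked after the answers `s`) -/
def answ (x : Fin K → Alt n) (Q : List (Fin n) → Fin n × Letter K) : ℕ → List (Fin n)
  | 0 => []
  | τ + 1 => answ x Q τ ++ [lett x (Q (answ x Q τ)).2 (Q (answ x Q τ)).1]

/-- the dart `d` is known from the answers `s` -/
def KD (Q : List (Fin n) → Fin n × Letter K) (s : List (Fin n)) (d : Fin n × Letter K) : Prop :=
  ∃ (s' : List (Fin n)) (w : Fin n), (s' ++ [w]) <+: s ∧ (d = Q s' ∨ d = (w, flip (Q s').2))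

open Classical in
/-- number of unknown darts asked (in `rest`, after the answers `pre`) whose answer is in the
set `B` -/
noncomputable def cnt (Q : List (Fin n) → Fin n × Letter K) (B : List (Fin n) → Finset (Fin n)) :
    List (Fin n) → List (Fin n) → ℕ
  | _, [] => 0
  | pre, w :: rest => (if ¬ KD Q pre (Q pre) ∧ w ∈ B pre then 1 else 0) +
      cnt Q B (pre ++ [w]) rest

/-- **QRY** (adaptive queries).  May assume S_EXT.
Proof. For a list `pre` let `Ω(pre)` be the set of the `x` with `answ x Q |pre| = pre`: `x ∈ Ω(pre)` iff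
`lett x (Q s').2 (Q s').1 = w` for all prefixes `s' ++ [w]` of `pre`.  Claim, by induction on `R`: if `|pre| + R = Nq` then
`∑_{x ∈ Ω(pre)} θ^{cnt pre (rest of answ x Q Nq)} ≤ |Ω(pre)| (1 + θ N₀/(n - Nq))^R`.  Step: `Ω(pre)` is the disjoint union of the `Ω(pre ++ [w])`.  If the dart
`(v, l) = Q pre` is known from `pre`, its answer is the same for all `x ∈ Ω(pre)` and nothing is counted.  Otherwise, for
every `w`, `|Ω(pre ++ [w])| ≤ |Ω(pre)| / (n - Nq)`: `Ω(pre)` is the set of the `x` with prescribed values on sets of pairs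
`A_j` (`j < K`; the pair of a query `(v, (j, false))` with answer `w` is `(v, w)`, of `(v, (j, true))` it is `(w, v)`), `A_j` injective in both
coordinates if `Ω(pre) ≠ ∅`, `|A_j| ≤ |pre| < Nq ≤ n - 2`; an unknown dart adds a new pair to one `A_j` (or makes the set empty), and
by EXT `2 |{g}| = (n - |A_j|)!`, so the quotient is `1/(n - |A_j|) ≤ 1/(n - Nq)`.  Hence
`∑_w [w ∈ B pre] θ |Ω(pre ++ [w])| + ∑_w |Ω(pre ++ [w])| ≤ (θ N₀/(n - Nq) + 1) |Ω(pre)|`. -/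
def S_QRY : Prop := ∀ (n K Nq N₀ : ℕ) (θ : ℝ) (Q : List (Fin n) → Fin n × Letter K)
  (B : List (Fin n) → Finset (Fin n)), 0 ≤ θ → Nq + 2 ≤ n →
  (∀ s : List (Fin n), s.length < Nq → (B s).card ≤ N₀) →
  ∑ x : Fin K → Alt n, θ ^ cnt Q B [] (answ x Q Nq) ≤
    (Nat.card (Alt n) : ℝ) ^ K * (1 + θ * N₀ / ((n : ℝ) - Nq)) ^ Nq

/-- **XT** (tail of the number of coincidences).  May assume S_QRY.
Proof. `M = |S|`, `Nq = M m`, `N = M (m+1)`.  Enumerate `S = {p_0, …, p_{M-1}}`.  Query number `τ = t M + i` asks the dart `(position of p_i at time t, g t)`; the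
position is `p_i` if `t = 0`, else the answer number `τ - M`.  `B s = S ∪ {entries of s}` (`≤ M + |s| ≤ N` elements).  Then
`ex x g S m = 2 * cnt Q B [] (answ x Q Nq)` (`≤` suffices): add the passes one after the other; let `K'`, `V'` be the sets of known darts and visited
vertices (starting with `∅`, `S`).  `K'` is closed under `(v, l) ↦ (lett x l v, flip l)`.  A pass over a known dart changes nothing (its end is visited).
A pass over an unknown dart `(v,l)` with end `w` adds exactly two darts `(v,l) ≠ (w, flip l)` to `K'`, and `w` to `V'` iff `w ∉ V'`; so `|K'| - 2 |V'|` increases by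
`2` if `w ∈ V'` (this is counted by `cnt`) and by `0` otherwise.
Tail: for `θ ≥ 1`, `#{b ≤ cnt} ≤ θ^{-b} ∑_x θ^{cnt} ≤ θ^{-b} |A_n|² (1 + θ N/(n - Nq))^{Nq} ≤ θ^{-b} |A_n|² exp(2 θ N²/n)` (`2 N ≤ n`).  Take
`θ = b n/(2 N²)`: `exp(b) (2N²/(bn))^b`.  If `θ < 1` the claimed bound is at least `|A_n|²`. -/
def S_XT : Prop := ∀ (n m b : ℕ) (g : ℕ → Letter 2) (S : Finset (Fin n)), 1 ≤ b →
  2 * (S.card * (m + 1)) + 4 ≤ n →
  (Nat.card {x : Fin 2 → Alt n // 2 * (b : ℤ) ≤ ex x g S m} : ℝ) ≤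
    (Nat.card (Alt n) : ℝ) ^ 2 *
      (2 * Real.exp 1 * ((S.card * (m + 1) : ℕ) : ℝ) ^ 2 / (b * n)) ^ b

/-- **C1** (excess and full vertices).
Proof. (c) As in XT: `|Kn (t+1)| - |Kn t| ≥ 2 (|Vis (t+1)| - |Vis t|)`: every new vertex `w = pz (t+1) p ∉ Vis t` gives the two darts `(w, flip (g t))`
and `(pz t p, g t)`, not in `Kn t` (all vertices of darts of `Kn t` are in `Vis t`, and `Kn t` is closed under
`(v, l) ↦ (lett x l v, flip l)`), and these `2 × (number of new vertices)` darts are different (`flip l ≠ l`).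
(a) Trivial for `t = 0` (no darts; `ex = 0`).  `t ≥ 1`: the vertices of the darts of `Kn t` are in `Vis t`, so `∑_{v ∈ Vis t} |Lt v| = |Kn t|` and
`∑_{v ∈ Vis t} (|Lt v| - 2) = ex t - 2 |S|`.  Every `v ∈ Vis t` has `|Lt v| ≥ 1`.  If `v = pz s p` with `1 ≤ s < t` then `flip (g (s-1))` and
`g s` are in `Lt v` and different (reduced).  So `|Lt v| = 1` only for `v ∈ S` or `v = pz t p`, `p ∈ S`: at most `2 |S|` vertices.  Hence
`∑ (|Lt v| - 2)⁺ = ∑_{Vis} (|Lt v| - 2) + #{|Lt v| = 1} ≤ ex t`.  (b) A full vertex contributes `2` to the sum in (a).  (d) `pot = ∑ (|Lt|-2)⁺ + #{…} ≤ ex + |S|`. -/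
def S_C1 : Prop := ∀ (n : ℕ) (x : Fin 2 → Alt n) (g : ℕ → Letter 2) (S : Finset (Fin n)) (m : ℕ),
  Red g m → ∀ t ≤ m, (2 * ((full x g S t).card : ℤ) ≤ ex x g S t) ∧
    ((pot x g S t : ℤ) ≤ ex x g S t + S.card) ∧ (∀ s ≤ t, ex x g S s ≤ ex x g S t)

/-- **LMA** (one block of the martingale).
Proof of (1), (2). The potential counts `(|L(v)| - 2)⁺` and `[v ∈ S, |L(v)| ≥ 2]`; `Lt` increases with `t`; every new dart `(v, l)` raises exactly one
`|L(v)|` by one, and raises the potential by at most one (the two counts jump at different values of `|L(v)|`); one time step adds at most `2 |S|` darts.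
(3) Let `s = |w| ≥ 1`, `g = gl w`, `a = g (s-1)` the last letter, `lam = κ + 1`.  Let `p ∈ S` be a shallow rider; choose `γ = γ_p` as in `shal` of minimal length, `v = wl γ (pz s p)`.
All proper prefixes of `γ` lead to full vertices (they satisfy `Ok a` too), so if `γ ≠ []` the last step of `γ` is a known dart and `b := flip (last γ) ∈ Lt v`; if `γ = []`, `v = pz s p` and
`b := flip a ∈ Lt v`.  Choose a letter `h = h_p`, allowed after `a :: γ` (i.e. `h ≠ b`), as follows.  (a) `|Lt v| ≥ 2`: `h ∉ Lt v` (exists, `v` is not full).  (b) `Lt v = {b}`, `v ∈ S`: any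
`h ≠ b`.  (c) `Lt v = {b}`, `v ∉ S`: `v` is visited first at a time `≥ 1`, and if it were visited at a time `1 ≤ s' < s` it would have the two different letters `flip (g (s'-1))`, `g s'`; so
`v` is visited only at time `s`, `v = pz s q`, `b = flip a`, and `γ ≠ []` (a rider sits at a vertex visited before `s`; with `v ∉ S` this would be a time `1 ≤ s' < s`); take `h ∉ {b, first letter of γ}`.
Claim: if the block (the next `lam` letters) starts with `γ ++ [h]` then the vertex `v` makes a contribution `≥ 1` to `pot (s + lam) - pot s`.  (a) the dart `(v,h)` becomes known at time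
`s + |γ| + 1 ≤ s + lam`, `|L(v)|` rises from `≥ 2`.  (b) `|L(v)|` rises from `1` to `≥ 2` and `v ∈ S`.  (c) `q` leaves `v` at time `s` with the first letter of `γ`, `p` leaves `v` at time `s + |γ|` with `h`: `|L(v)| ≥ 3` afterwards
(the letters `b`, first letter of `γ` (allowed after `a`, so `≠ flip a = b`), `h` are different).  For a block word `u` and `j ≤ κ` let `N_j(u)` be the number of shallow riders `p` with `|γ_p| = j` and `γ_p ++ [h_p]` a prefix of `u`: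
they have the same `γ`, so different `v`, and `pot (s+lam) - pot s ≥ N_j`.  So `pot (s+lam) - pot s ≥ (1/lam) ∑_j N_j`, and `ER` of the indicator that the block starts with a given allowed word of length
`j + 1 ≤ lam` is `3^{-(j+1)} ≥ 3^{-lam}` (`nxt_card`, `er_comp`).  Sum over the shallow riders. -/
def S_LMA : Prop := ∀ (n : ℕ) (x : Fin 2 → Alt n) (S : Finset (Fin n)),
  (∀ (g : ℕ → Letter 2) (t : ℕ), pot x g S t ≤ pot x g S (t + 1) ∧
    pot x g S (t + 1) ≤ pot x g S t + 2 * S.card) ∧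
  ∀ (κ : ℕ) (w : List (Letter 2)), w ≠ [] → RedL w →
    (sh κ x (gl w) S w.length : ℝ) / ((κ + 1) * 3 ^ (κ + 1)) ≤
      ER (κ + 1) w (fun v => (pot x (gl v) S (w.length + (κ + 1)) : ℝ) -
        pot x (gl w) S w.length)

/-- **LMB** (the exponential bound).  May assume S_LMA.
Proof. `lam = κ+1`, `D = 2 |S| lam > 0`, `c₀ = 1/(2 lam 3^lam)`, `A(v) = ∑_{b ≥ 1, (b+1) lam ≤ |v|} sh κ x (gl v) S (b lam)`,
`Ψ(v) = exp ((c₀ A(v) - pot x (gl v) S |v|)/D)`.  Claim `ER m [] Ψ ≤ 1`.  For a reduced word `w` of length `b lam`, `b ≥ 1`, the increase `J = pot (|w| + lam) - pot |w|` is in `[0, D]` and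
`ER lam w J ≥ sh/(lam 3^lam)`; `e^{-y} ≤ 1 - (1 - e⁻¹) y ≤ 1 - y/2` on `[0,1]` (convexity), so
`ER lam w (e^{-J/D}) ≤ 1 - ER J/(2D) ≤ exp (- c₀ sh/D)`, i.e. `ER lam w Ψ ≤ Ψ w` (`A(v) = A(w) + sh κ (gl w) S (b lam)` for the extensions `v` by `lam` letters: `sh_congr`).
The first block: `Ψ ≤ 1` at length `lam` (`A = 0`, `pot ≥ 0`); the last `m mod lam` letters: `A` unchanged, `pot` nondecreasing.  (Induction on the number of blocks, `er_comp`, `er_mono`.)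
Markov: on the event `c₀ A - pot > D z`, `Ψ ≥ e^z`. -/
def S_LMB : Prop := ∀ (n : ℕ) (x : Fin 2 → Alt n) (S : Finset (Fin n)) (κ m : ℕ) (z : ℝ),
  1 ≤ S.card → 0 ≤ z →
  ER m [] (fun w => open Classical in if
    2 * (κ + 1) * 3 ^ (κ + 1) * ((pot x (gl w) S m : ℝ) + 2 * S.card * (κ + 1) * z) <
      ∑ b ∈ Finset.Ico 1 (m / (κ + 1)), (sh κ x (gl w) S (b * (κ + 1)) : ℝ) then 1 else 0) ≤
    Real.exp (-z)

/-- **DET** (`Mev` forces riders).
Proof. `S` = set of the points of `c`, `|S| = 2 r`.  (1) Let `t < m` and `¬ Single … t q`: the edge of the pass `(q, t)` is the edge of a pass `(q', t') ≠ (q, t)`.  If `g t' = g t` then `pz t' (c q') = pz t (c q)`; if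
`g t' = flip (g t)` then `pz (t'+1) (c q') = pz t (c q)` and `(q', t'+1) ≠ (q, t)` (else `g t = flip (g (t-1))`).  So there are `q''` and `s ≤ m`, `s ≠ t` (`pz t`, `c` injective), with
`pz s (c q'') = pz t (c q)`: `(q,t)` is at a multiple vertex.  (`zpos_one`; `tail`.)  By `Mev` at least `r` of the `2 r` points are at multiple vertices at each time `t < m`.
(2) Let `V` be the set of the vertices visited at at least two different times `≤ m`.  For `b ∈ [1, m/lam)`, `t = b lam < m`: a point at a multiple vertex at time `t` is a rider, or `t` is the first time at which its vertex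
(which is in `V`) is visited.  Different `b` and different points give different vertices of `V` in the second case.  Sum: `r (m/lam - 1) ≤ ∑_b rid (b lam) + |V|`.
(3) `|V| ≤ ∑_{t ∈ [1,m)} sh 0 t + 2 r`: for `v ∈ V` let `t₁ < t₂` be the first two times at which it is visited, `v = pz t₂ p`.  `p` is a rider at time `t₂` and `Lt t₂ v ⊆ {g t₁, flip (g (t₁-1)), flip (g (t₂-1))}`
(a known dart at `v` comes from a departure at a time `< t₂` or an arrival at a time `≤ t₂`), so `v` is not full and `p` is counted in `sh 0 … t₂` (`γ = []`) if `t₂ < m`; at most `2 r` vertices have `t₂ = m`. -/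
def S_DET : Prop := ∀ (n r m lam : ℕ) (x : Fin 2 → Alt n) (g : ℕ → Letter 2) (c : Pts n r),
  1 ≤ lam → Red g m → Mev x (fun _ => 1) g m c →
  r * (m / lam - 1) ≤ ∑ b ∈ Finset.Ico 1 (m / lam), rid x g (Finset.univ.map c) (b * lam) +
    ∑ t ∈ Finset.Ico 1 m, sh 0 x g (Finset.univ.map c) t + 2 * r

/-- **BALL** (a set with small boundary containing many positions).
Proof. Let `P` be the set of the `p ∈ S` which are not shallow, `y_p = pz (s + κ') p`, `F_j` = set of the vertices `wl x δ y_p`, `p ∈ P`, `δ` any word of length `≤ j`.  Claim: `F_j ⊆ full s` for `j ≤ κ'`.  By induction on `d = |δ| ≤ κ'`: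
`wl x δ y_p = wl x γ (pz s p)` with `Ok (g (s-1)) γ` and `κ' - d ≤ |γ| ≤ κ' + d`: for `δ = []`, `γ = [g s, …, g (s+κ'-1)]` (`Red`).  Appending a letter `l` to `δ` (`d < κ'`, so `γ ≠ []`): if `l = flip (last γ)` remove the last
letter of `γ`, else append `l`.  Since `|γ| ≤ 2κ'` and `p` is not shallow, the vertex is full.
`|F_0| = |P| ≥ r₁` (`pz` injective), `F_j ⊆ F_{j+1}`, `|F_{κ'}| ≤ |full| ≤ F < (1+η)^{κ'} r₁`: so some `j < κ'` has `|F_{j+1}| ≤ (1+η) |F_j|` (`κ' ≥ 1` because `F ≥ |F_0| ≥ r₁` if `κ' = 0`).  `H = F_j`: for each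
generator `i`, `v ↦ x_i v` maps `{v ∈ H : x_i v ∉ H}` injectively into `F_{j+1} \ F_j`, which has at most `η |H|` elements.  The `y_p`, `p ∈ P`, are in `H`, `r₁ ≤ |H| ≤ F`. -/
def S_BALL : Prop := ∀ (n κ' s r₁ F : ℕ) (η : ℝ) (x : Fin 2 → Alt n) (g : ℕ → Letter 2)
  (S : Finset (Fin n)), 1 ≤ s → Red g (s + κ') → 0 ≤ η →
  r₁ ≤ Nat.card {p : Fin n // p ∈ S ∧ ¬ shal (2 * κ') x g S s p} →
  (full x g S s).card ≤ F → (F : ℝ) < (1 + η) ^ κ' * r₁ →
  ∃ H : Finset (Fin n), r₁ ≤ H.card ∧ H.card ≤ F ∧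
    (∀ i : Fin 2, ((H.filter fun v => (x i : Perm (Fin n)) v ∉ H).card : ℝ) ≤ η * H.card) ∧
    r₁ ≤ (S.filter fun p => pz x g (s + κ') p ∈ H).card

/-- **HCT** (the number of sets with small boundary).
Proof. For fixed `H`, `|H| = h`: an even permutation `x` maps `H` to a set `H'` with `|H' \ H| = #{v ∈ H : x v ∉ H} ≤ b`.  The number of such `H'` is `∑_{j ≤ b} binom(h,j) binom(n-h,j) ≤ ∑_j binom(h,j) n^b ≤ 2^h n^b`.  For every `H'` of size `h` the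
number of even `x` with `x(H) = H'` is `|A_n|/binom(n,h)` (`A_n` is transitive on the `h`-subsets since `h + 2 ≤ n`: `A_n` is transitive on `h`-tuples; see EXT).  So for one generator at most `|A_n| 2^h n^b / binom(n,h)`, for two independent ones the square;
sum over the `binom(n,h)` sets `H`: `|A_n|² 4^h n^{2b}/binom(n,h)`, and `binom(n,h) ≥ (n/h)^h` (`Nat.pow_le_choose` gives
`((n + 1 - h)^h)/h!`; directly: `binom(n,h) = ∏_{i<h} (n-i)/(h-i) ≥ (n/h)^h`). -/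
def S_HCT : Prop := ∀ (n h b : ℕ), 1 ≤ h → h + 2 ≤ n →
  ∑ H ∈ (Finset.univ : Finset (Fin n)).powersetCard h,
    (Nat.card {x : Fin 2 → Alt n // ∀ i : Fin 2,
      (H.filter fun v => (x i : Perm (Fin n)) v ∉ H).card ≤ b} : ℝ) ≤
    (Nat.card (Alt n) : ℝ) ^ 2 * (4 * h / n) ^ h * (n : ℝ) ^ (2 * b)

/-- **RT** (random roots).
Proof. Union over the sets `Q` of `r₁` of the `2 r` indices (at most `4^r`): the number of `c` with `w (c q) ∈ H` for `q ∈ Q` is `(h)_{r₁} (n - r₁)_{2r - r₁}` (choose the values on `Q`, then the others), and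
`(n)_{2r} = (n)_{r₁} (n-r₁)_{2r-r₁}`, `(h)_{r₁}/(n)_{r₁} ≤ (h/n)^{r₁}` (`h ≤ n`). -/
def S_RT : Prop := ∀ (n r r₁ : ℕ) (w : Perm (Fin n)) (H : Finset (Fin n)), 2 * r ≤ n → 1 ≤ n →
  (Nat.card {c : Pts n r // r₁ ≤ (Finset.univ.filter fun q => w (c q) ∈ H).card} : ℝ) ≤
    (n.descFactorial (2 * r) : ℝ) * 4 ^ r * ((H.card : ℝ) / n) ^ r₁

/-- **HB** (for a fixed word: probability of a set with small boundary containing many positions).
May assume S_HCT, S_RT.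
Proof. Union over `t ≤ m`, `h ∈ [h₁, h₂]`, `H` with `|H| = h`: for fixed `x` and `H` the number of `c` is at most `(n)_{2r} 4^r (h/n)^{r₁}` (RT with `w = pz x g t`); sum over the pairs `(x, H)` with both boundaries
`≤ ⌊η h⌋` by HCT with `b = ⌊η h⌋`. -/
def S_HB : Prop := ∀ (n r r₁ h₁ h₂ m : ℕ) (η : ℝ) (g : ℕ → Letter 2), 2 * r ≤ n → 1 ≤ h₁ →
  h₂ + 2 ≤ n → 0 ≤ η →
  (Nat.card {xc : (Fin 2 → Alt n) × Pts n r // ∃ t ≤ m, ∃ H : Finset (Fin n), h₁ ≤ H.card ∧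
    H.card ≤ h₂ ∧ (∀ i : Fin 2, ((H.filter fun v => (xc.1 i : Perm (Fin n)) v ∉ H).card : ℝ) ≤
      η * H.card) ∧
    r₁ ≤ (Finset.univ.filter fun q => pz xc.1 g t (xc.2 q) ∈ H).card} : ℝ) ≤
  (Nat.card (Alt n) : ℝ) ^ 2 * (n.descFactorial (2 * r) : ℝ) * ((m + 1) *
    ∑ h ∈ Finset.Icc h₁ h₂, (4 * h / n : ℝ) ^ h * (n : ℝ) ^ (2 * ⌊η * h⌋₊) * 4 ^ r *
      ((h : ℝ) / n) ^ r₁)

/-- **DP** (deterministic implication for one word).  May assume S_C1, S_DET, S_BALL.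
Parameters: `lam = 2 κ' + 1` (`κ = 2 κ'`), `S` = points of `c`, `B' ≥ 1`, `(1+η)^{κ'} (1 - 2η) > B'`.
If `Mev` holds, `ex m < 2 B' r`, the two martingale events fail, i.e. `∑_b sh (2κ') (b lam) ≤ η r (m/lam - 1)` and `∑_{t ∈ [1,m)} sh 0 t + 2 r ≤ η r (m/lam - 1)`,
and `m/lam ≥ 2`, then there are `t ≤ m` and `H` with `(1-2η) r ≤ |H| ≤ B' r`, boundaries `≤ η |H|`, and at least `(1-2η) r` of the points of `c` in `H` at time `t`.
Proof. DET: `∑_{b ∈ [1, m/lam)} rid (b lam) ≥ (1-η) r (m/lam - 1)`; subtract the shallow riders: the average over `b` of the number of riders which are not shallow is `≥ (1-2η) r`; take `b` with at least this number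
(hence at least `r₁ = ⌈(1-2η) r⌉`), `s = b lam ≤ m - lam`.  Not shallow riders are among the not shallow points, C1: `2 |full s| ≤ ex s ≤ ex m < 2 B' r` so `|full s| ≤ B' r =: F`.  BALL (`s + κ' ≤ m`; `F < (1+η)^{κ'} (1-2η) r ≤ (1+η)^{κ'} r₁`). -/
def S_DP : Prop := ∀ (n r m κ' B' : ℕ) (η : ℝ) (x : Fin 2 → Alt n) (g : ℕ → Letter 2)
  (c : Pts n r), 1 ≤ r → 1 ≤ B' → 0 < η → η < 1 / 2 → (B' : ℝ) < (1 + η) ^ κ' * (1 - 2 * η) →
  2 ≤ m / (2 * κ' + 1) → Red g m → Mev x (fun _ => 1) g m c →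
  ex x g (Finset.univ.map c) m < 2 * (B' * r : ℕ) →
  ∑ b ∈ Finset.Ico 1 (m / (2 * κ' + 1)),
    (sh (2 * κ') x g (Finset.univ.map c) (b * (2 * κ' + 1)) : ℝ) ≤
      η * r * ((m / (2 * κ' + 1) : ℕ) - 1 : ℝ) →
  (∑ t ∈ Finset.Ico 1 m, (sh 0 x g (Finset.univ.map c) t : ℝ)) + 2 * r ≤
      η * r * ((m / (2 * κ' + 1) : ℕ) - 1 : ℝ) →
  ∃ t ≤ m, ∃ H : Finset (Fin n), ⌈(1 - 2 * η) * r⌉₊ ≤ H.card ∧ H.card ≤ B' * r ∧
    (∀ i : Fin 2, ((H.filter fun v => (x i : Perm (Fin n)) v ∉ H).card : ℝ) ≤ η * H.card) ∧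
    ⌈(1 - 2 * η) * r⌉₊ ≤ (Finset.univ.filter fun q => pz x g t (c q) ∈ H).card

/-- the probability of `Mev` for random `x`, random points and a random reduced word of length `m` -/
noncomputable def PM (n r m : ℕ) : ℝ :=
  (∑ x : Fin 2 → Alt n, ∑ c : Pts n r, ER m [] (fun w => open Classical in
    if Mev x (fun _ => 1) (gl w) m c then 1 else 0)) /
    ((Nat.card (Alt n) : ℝ) ^ 2 * (n.descFactorial (2 * r) : ℝ))

/-- **PMB** (the bound with all parameters).  May assume S_XT, S_C1, S_LMB, S_HB, S_DP.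
Proof. `lam = 2κ'+1`, `S` = points of `c`, `|S| = 2 r`, `z = 2 r log n`.  Indicator of `Mev` `≤` [`2 B' r ≤ ex m`] + [martingale event for `κ = 2κ'`] + [martingale event for `κ = 0`] + [the event of HB with `h₁ = r₁ = ⌈(1-2η) r⌉`, `h₂ = B' r`].  Indeed, if the first three
fail, then by C1 `pot m ≤ ex m + 2 r ≤ (2B' + 2) r` and the negations of the two martingale events give
`∑_b sh (2κ') (b lam) ≤ 2 lam 3^lam ((2B'+2) r + 4 r lam z) ≤ η r (m/lam - 1)` and `∑_{t ∈ [1,m)} sh 0 t + 2 r ≤ 6 ((2B'+2) r + 4 r z) + 2 r ≤ η r (m/lam - 1)` (hypothesis (P); `m/1 = m`), so DP applies.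
Average over `x`, `c`, `w` (for XT and HB fix the word `w` and use that `ER` commutes with sums; for the martingale events fix `x`, `c`): `PM ≤ XT + 2 e^{-z} + HB`. -/
def S_PMB : Prop := ∀ (n r m κ' B' : ℕ) (η : ℝ), 1 ≤ r → 1 ≤ B' → 0 < η → η < 1 / 4 →
  (B' : ℝ) < (1 + η) ^ κ' * (1 - 2 * η) → 2 ≤ m / (2 * κ' + 1) →
  4 * r * (m + 1) + 4 ≤ n → B' * r + 2 ≤ n →
  (2 * (2 * κ' + 1) * 3 ^ (2 * κ' + 1) * ((2 * B' + 2) * r + 4 * r * (2 * κ' + 1) *
      (2 * r * Real.log n)) + 2 * r ≤ η * r * ((m / (2 * κ' + 1) : ℕ) - 1 : ℝ)) →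
  PM n r m ≤ (2 * Real.exp 1 * ((2 * r * (m + 1) : ℕ) : ℝ) ^ 2 / ((B' * r : ℕ) * n)) ^ (B' * r) +
    2 * Real.exp (-(2 * r * Real.log n)) + (m + 1) *
      ∑ h ∈ Finset.Icc ⌈(1 - 2 * η) * r⌉₊ (B' * r), (4 * h / n : ℝ) ^ h *
        (n : ℝ) ^ (2 * ⌊η * h⌋₊) * 4 ^ r * ((h : ℝ) / n) ^ ⌈(1 - 2 * η) * r⌉₊

/-- **NUMB** (numbers for the base).  May assume S_PMB.
Proof. Given `0 < δ < 1/3`: `B' = ⌈2/δ⌉`, `η = 1/100`, `κ'` with `(1+η)^{κ'} (1-2η) > B'`, `lam = 2κ'+1`, `C₀` with `C₀ r log n ≤ m` ⟹ hypothesis (P) and `m/lam ≥ 2` (the left side of (P) is `≤ C(κ',B') r² log n` for `n ≥ 3`).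
`r ≤ n^{1/3-δ}`, `m ≤ C₁ r log n`.  First term: `N = 2 r (m+1) ≤ 2 (C₁+1) r² log n`, `2e N²/(B' r n) ≤ 24 (C₁+1)² r³ (log n)²/n ≤ n^{-2δ}` for large `n` (`r³ ≤ n^{1-3δ}`), to the power `B' r`: `≤ n^{-2 δ B' r} ≤ n^{-2r}`.  Second: `2 n^{-2r}`.
Third: for `h ∈ [r₁, B' r]`, `r₁ = ⌈(1-2η) r⌉`: `n^{2⌊ηh⌋} ≤ (n^{2η})^h`, `y := 4 B' r n^{2η}/n ≤ 1`, so the `h`-term is `≤ y^{h} 4^r (B' r/n)^{r₁} ≤ y^{r₁} 4^r (B' r/n)^{r₁}`; `r/n ≤ n^{-2/3-δ}`, so `y (B' r/n) ≤ 4 B'² n^{2η - 4/3}`, to the power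
`r₁ ≥ (1-2η) r`: `≤ (4B'²)^{r} n^{-(4/3-2η)(1-2η) r} ≤ (4B'²)^r n^{-(5/4) r}`  (`(4/3-0.02)·0.98 = 1.287`).  Number of `h`: `≤ B' r + 1`, factor `(m+1)`: all together
`≤ n^{-(5/4) r} (16 B'²)^r (m+1)(B' r+1) ≤ n^{-(9/8) r}` for large `n`, uniformly in `r ≥ 1` (`(m+1)(B'r+1) ≤ C r² log n ≤ C 4^r log n`).  Sum `≤ n^{-(17/16) r}`. -/
def S_NUMB : Prop := ∀ δ : ℝ, 0 < δ → δ < 1 / 3 → ∃ C₀ : ℝ, 0 < C₀ ∧ ∀ C₁ : ℝ, C₀ < C₁ →
  ∀ᶠ n : ℕ in Filter.atTop, ∀ r : ℕ, 1 ≤ r → (r : ℝ) ≤ (n : ℝ) ^ (1 / 3 - δ) → ∀ m : ℕ,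
    C₀ * r * Real.log n ≤ m → (m : ℝ) ≤ C₁ * r * Real.log n →
    PM n r m ≤ Real.exp (-(17 / 16) * r * Real.log n)

/-- **BL** (one level of the base).  May assume S_RW, S_TR, S_DDP, S_INV.
Proof. `Φ(x) = ∑_c ip (tst c) (Wk x ^ (2L) (tst c)) ≥ 0`; if `x` has a bad eigenfunction then by TR `(4/9)(n-r)_r (1-ε)^{2L} ≤ Φ(x)` (`μ > 1 - ε ≥ 0`).  `∑_x Φ(x) = ∑_j c_j ∑_c ER j [] (w ↦ ∑_x ∏_i DD c (pz x (gl w) j) i)` (RW, DDP, `er_sum`), `N = 2L`.
For `j < m₀`: `∏ |DD| ≤ 2^r`, so these `j` contribute at most `2^r |A_n|² (n)_{2r} ∑_{j<m₀} c_j`, and `∑_{j<m₀} c_j ≤ (√3)^{m₀} ∑ c_j (1/√3)^j ≤ (√3)^{m₀} (√3/2)^{2L} = (√3)^{m₀} (3/4)^L`.  For `m₀ ≤ j ≤ 2L`: INV with `u = 1`, `T = j`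
(`zpos_one`) bounds `|∑_x ∏|` by `2^r #{x : Mev}`, so the contribution is at most `2^r |A_n|² (n)_{2r} sup_j PM n r j`.  Divide: `(n)_{2r} = (n)_r (n-r)_r`, `(n)_r ≤ n^r`. -/
def S_BL : Prop := ∀ (n r L m₀ : ℕ) (ε p : ℝ), 5 * r ≤ n → 2 * r * (2 * L) + 2 ≤ n → 0 < ε →
  ε ≤ 1 → 0 ≤ p → (∀ m : ℕ, m₀ ≤ m → m ≤ 2 * L → PM n r m ≤ p) →
  (Nat.card {x : Fin 2 → Alt n // ∃ (f : Fn n r) (μ : ℝ), f ≠ 0 ∧ Zm f ∧ Wk x f = μ • f ∧
      1 - ε < μ} : ℝ) * (1 - ε) ^ (2 * L) ≤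
    (Nat.card (Alt n) : ℝ) ^ 2 * ((9 / 4) * (n : ℝ) ^ r * 2 ^ r *
      ((√3) ^ m₀ * (3 / 4) ^ L + p))

/-- **BASE** (two generators).  May assume S_RED, S_NUMB, S_BL.
Proof. May assume `0 < α < 1/3` (`Whp` is monotone in `α`); `δ = 1/3 - α`; `C₀` from NUMB, `m₀ = ⌈C₀ r log n⌉`, `L = ⌈(2 C₀ + 8) r log n⌉`, `C₁ = 4 C₀ + 20`: for large `n`, `2 L ≤ C₁ r log n` and
`(√3)^{m₀} (3/4)^L ≤ n^{-2r}` (`log √3 = 0.5493…`, `log (4/3) = 0.2876…`: `0.55 (C₀ r log n + 1) + 2 r log n ≤ 0.2876 (2 C₀ + 8) r log n` since `0.55 < 0.5752`, `2 < 2.3`, and the `+1` is absorbed for large `n`).  `p = n^{-(17/16) r}`.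
`ε = min (1/2) (1/(64 C₁))`: `(1-ε)^{2L} ≥ e^{-4 ε L} ≥ n^{-2 ε C₁ r} ≥ n^{-r/32}`.  BL: the proportion of `x` with a bad eigenfunction at level `r` is at most `(9/4) n^r 2^r (n^{-2r} + n^{-(17/16) r}) n^{r/32} ≤ n^{-r/64}` for large `n`, uniformly in
`1 ≤ r ≤ n^α` (`5 r ≤ n` and `4 r L + 2 ≤ n` hold).  Sum over `r ≥ 1`: `≤ 2 n^{-1/64} → 0`.  For the other `x` RED gives `TupleGap x r ε` for all `r ≤ n^α`. -/
def S_BASE : Prop := ∀ α : ℝ, α < 1 / 3 → ∃ ε : ℝ, 0 < ε ∧ Whp 2 α ε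

/-- **ALLK** (the final statement).  May assume S_BASE, S_STEP (S_STEP is in Goals3; import it too).
Proof. Induction on `k ≥ 2`: `1 - (2/3) / 2^{k+1-2} = (1 + (1 - (2/3)/2^{k-2}))/2`.  Given `α < α_{k+1}`
choose `0 < α₀ < α_k`, `α₀ < 1`, with `α < (1 + α₀)/2`. -/
def S_ALLK : Prop := ∀ k : ℕ, 2 ≤ k → ∀ α : ℝ, α < 1 - 2 / 3 / 2 ^ (k - 2) →
  ∃ ε : ℝ, 0 < ε ∧ Whp k α ε

end Pool.Agent.Helper3.AK
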