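import Pool.Agent.Helper54.AK.RED
import Pool.Agent.Helper69.AK.FRI
import Pool.Agent.Helper58.AK.FR
import Pool.Agent.Helper90.AK.DDP
import Pool.Agent.Helper23.AK.TR
import Pool.Agent.Helper73.AK.INV
import Pool.Agent.Helper23.AK.INV
import Pool.Agent.Helper7.AK.TRJ
import Pool.Agent.Helper11.AK.GG
import Pool.Agent.Helper60.AK.LZ
import Pool.Agent.Helper67.AK.UR
import Pool.Agent.Helper93.AK.OPA
import Pool.Agent.Helper64.AK.OP
import Pool.Agent.Helper19.AK.EX
import Pool.Agent.Helper32.AK3.CTA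
import Pool.Agent.Helper63.AK.CTB
import Pool.Agent.Helper74.AK.CT
import Pool.Agent.Helper50.AK.FL
import Pool.Agent.Helper16.AK.NUMF
import Pool.Agent.Helper33.AK.STEP
import Pool.Agent.Helper67.AK.RW
import Pool.Agent.Helper25.AK.EXT
import Pool.Agent.Helper56.AK.QRY
import Pool.Agent.Helper49.AK.XT
import Pool.Agent.Helper69.AK.C1
import Pool.Agent.Helper33.AK.LMA
import Pool.Agent.Helper31.AK.LMB
import Pool.Agent.Helper77.AK.DET
import Pool.Agent.Helper54.AK.BALL
import Pool.Agent.Helper58.AK.HCT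
import Pool.Agent.Helper90.AK.RT
import Pool.Agent.Helper70.AK.HB
import Pool.Agent.Helper19.AK.DP
import Pool.Agent.Helper8.AK.BL
import Pool.Agent.Helper11.AK.BASE
import Pool.Agent.Helper7.AK.ALLK
import Pool.Agent.Helper65.AK.PMB
import Pool.Agent.Helper55.AK.NUMB

/-!
# Project AK, assembly
-/

namespace Pool.Agent.Helper3.AK

open Filter Topology

theorem inv_all : S_INV := inv (Pool.Agent.Helper23.AK.thm Pool.Agent.Helper7.AKTRJ.thm)

theorem tr_all : S_TR := tr (fr fri)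

theorem fl_all : S_FL :=
  fl tr_all Pool.Agent.Helper90.AK.ddp inv_all
    (Pool.Agent.Helper64.AK.op Pool.Agent.Helper93.AKOPA.opa)
    (Pool.Agent.Helper19.AK.ex Pool.Agent.Helper60.AK.LZ.lz)
    (ct Pool.Agent.Helper32.AK3.cta ctb)

theorem step_all : S_STEP :=
  step Pool.Agent.Helper54.AK.red (Pool.Agent.Helper67.AK.ur Pool.Agent.Helper60.AK.LZ.lz)
    fl_all numf

theorem allk_of (hpmb : S_XT → S_C1 → S_LMB → S_HB → S_DP → S_PMB) (hnum : S_PMB → S_NUMB) :
    S_ALLK :=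
  allk (Pool.Agent.Helper11.AK.base Pool.Agent.Helper54.AK.red
    (hnum (hpmb (xt (Pool.Agent.Helper56.AK.qry ext)) c1 (lmb lma)
      (Pool.Agent.Helper70.AK.hb hct Pool.Agent.Helper90.AK.rt)
      (Pool.Agent.Helper19.AK.dp c1 Pool.Agent.Helper77.AK.det Pool.Agent.Helper54.AK.Ball.ball)))
    (bl Pool.Agent.Helper67.AK.rw tr_all Pool.Agent.Helper90.AK.ddp inv_all)) step_all

/-- constant gap on all tuples of length `r ≤ n ^ α`, for every `k ≥ 2` -/
theorem allk_all : S_ALLK := allk_of pmb numb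

end Pool.Agent.Helper3.AK
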